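import Pool.Agent.R218.BE.Stm

open scoped BigOperators

namespace R218.BE

namespace CA

/-- `v` has a child on the side `b` -/
def Has {n : ℕ} (T : DecTree n) (v : Fin n) (b : Bool) : Prop := ∃ w, T.par w = some (v, b)

open Classical in
/-- which children the vertex `v` has: right child, left child -/
noncomputable def typ {n : ℕ} (T : DecTree n) (v : Fin n) : Bool × Bool :=
  (decide (Has T v true), decide (Has T v false))

/-- number of the vertices of a given type -/
def cnt {n : ℕ} (f : Fin n → Bool × Bool) (c : Bool × Bool) : ℕ :=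
  ∑ v, if f v = c then 1 else 0

theorem nR_eq {n : ℕ} (T : DecTree n) : T.nR = cnt (typ T) (true, false) := by
  classical
  unfold DecTree.nR cnt
  rw [Nat.card_eq_fintype_card, Fintype.card_subtype, Finset.card_filter]
  refine Finset.sum_congr rfl fun v _ => if_congr ?_ rfl rfl
  simp only [typ, Prod.mk.injEq, decide_eq_true_eq, decide_eq_false_iff_not]
  exact Iff.rfl

theorem nL_eq {n : ℕ} (T : DecTree n) : T.nL = cnt (typ T) (false, true) := by
  classical
  unfold DecTree.nL cnt
  rw [Nat.card_eq_fintype_card, Fintype.card_subtype, Finset.card_filter]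
  refine Finset.sum_congr rfl fun v _ => if_congr ?_ rfl rfl
  rw [and_comm]
  simp only [typ, Prod.mk.injEq, decide_eq_true_eq, decide_eq_false_iff_not]
  exact Iff.rfl

theorem nD_eq {n : ℕ} (T : DecTree n) : T.nD = cnt (typ T) (true, true) := by
  classical
  unfold DecTree.nD cnt
  rw [Nat.card_eq_fintype_card, Fintype.card_subtype, Finset.card_filter]
  refine Finset.sum_congr rfl fun v _ => if_congr ?_ rfl rfl
  unfold DecTree.Two
  rw [and_comm]
  simp only [typ, Prod.mk.injEq, decide_eq_true_eq]
  exact Iff.rfl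

/-- new smallest vertex in the free slot `x` -/
def ext {n : ℕ} (T : DecTree n) (x : Fin n × Bool) (hx : ∀ w, T.par w ≠ some x) :
    DecTree (n + 1) where
  par := Fin.cons (some (x.1.succ, x.2)) (fun v => (T.par v).map (fun y => (y.1.succ, y.2)))
  root_unique := by
    obtain ⟨r, hr, hu⟩ := T.root_unique
    refine ⟨r.succ, by simp [hr], ?_⟩
    intro u
    refine Fin.cases ?_ (fun v => ?_) u
    · intro h; simp at h
    · intro h
      simp only [Fin.cons_succ, Option.map_eq_none_iff] at h
      rw [hu v h]
  lt_par := by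
    intro v
    refine Fin.cases ?_ (fun v => ?_) v
    · intro p s h
      simp only [Fin.cons_zero, Option.some.injEq, Prod.mk.injEq] at h
      rw [← h.1]; exact Fin.succ_pos _
    · intro p s h
      simp only [Fin.cons_succ, Option.map_eq_some_iff, Prod.mk.injEq, Prod.exists] at h
      obtain ⟨a, b, hab, rfl, rfl⟩ := h
      exact Fin.succ_lt_succ_iff.2 (T.lt_par v a b hab)
  inj := by
    intro v
    refine Fin.cases ?_ (fun v => ?_) v
    · intro w
      refine Fin.cases ?_ (fun w => ?_) w
      · intros; rfl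
      · intro y h1 h2
        exfalso
        simp only [Fin.cons_zero, Option.some.injEq] at h1
        simp only [Fin.cons_succ, Option.map_eq_some_iff, Prod.exists] at h2
        obtain ⟨a, b, hab, h3⟩ := h2
        rw [← h1] at h3
        simp only [Prod.mk.injEq, Fin.succ_inj] at h3
        exact hx w (by rw [hab, h3.1, h3.2])
    · intro w
      refine Fin.cases ?_ (fun w => ?_) w
      · intro y h2 h1
        exfalso
        simp only [Fin.cons_zero, Option.some.injEq] at h1
        simp only [Fin.cons_succ, Option.map_eq_some_iff, Prod.exists] at h2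
        obtain ⟨a, b, hab, h3⟩ := h2
        rw [← h1] at h3
        simp only [Prod.mk.injEq, Fin.succ_inj] at h3
        exact hx v (by rw [hab, h3.1, h3.2])
      · intro y h1 h2
        simp only [Fin.cons_succ, Option.map_eq_some_iff, Prod.exists] at h1 h2
        obtain ⟨a, b, hab, h3⟩ := h1
        obtain ⟨a', b', hab', h3'⟩ := h2
        rw [← h3'] at h3
        simp only [Prod.mk.injEq, Fin.succ_inj] at h3
        rw [h3.1, h3.2] at hab
        rw [T.inj v w _ hab hab']

theorem ext_par_zero {n : ℕ} (T : DecTree n) (x : Fin n × Bool) (hx : ∀ w, T.par w ≠ some x) :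
    (ext T x hx).par 0 = some (x.1.succ, x.2) := rfl

theorem ext_par_succ {n : ℕ} (T : DecTree n) (x : Fin n × Bool) (hx : ∀ w, T.par w ≠ some x)
    (v : Fin n) : (ext T x hx).par v.succ = (T.par v).map (fun y => (y.1.succ, y.2)) := rfl

theorem has_ext_zero {n : ℕ} (T : DecTree n) (x : Fin n × Bool) (hx : ∀ w, T.par w ≠ some x)
    (b : Bool) : ¬ Has (ext T x hx) 0 b := by
  rintro ⟨w, hw⟩
  exact absurd ((ext T x hx).lt_par w 0 b hw) (by simp)

theorem has_ext_succ {n : ℕ} (T : DecTree n) (x : Fin n × Bool) (hx : ∀ w, T.par w ≠ some x)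
    (v : Fin n) (b : Bool) : Has (ext T x hx) v.succ b ↔ Has T v b ∨ x = (v, b) := by
  constructor
  · rintro ⟨w, hw⟩
    revert hw
    refine Fin.cases ?_ (fun w => ?_) w
    · intro h
      right
      rw [ext_par_zero] at h
      simp only [Option.some.injEq, Prod.mk.injEq, Fin.succ_inj] at h
      exact Prod.ext h.1 h.2
    · intro h
      left
      rw [ext_par_succ] at h
      simp only [Option.map_eq_some_iff, Prod.mk.injEq, Prod.exists, Fin.succ_inj] at h
      obtain ⟨a, c, hac, rfl, rfl⟩ := h
      exact ⟨w, hac⟩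
  · rintro (⟨w, hw⟩ | rfl)
    · exact ⟨w.succ, by rw [ext_par_succ, hw]; rfl⟩
    · exact ⟨0, rfl⟩

theorem typ_ext_zero {n : ℕ} (T : DecTree n) (x : Fin n × Bool) (hx : ∀ w, T.par w ≠ some x) :
    typ (ext T x hx) 0 = (false, false) := by
  simp [typ, has_ext_zero]

theorem typ_ext_succ_ne {n : ℕ} (T : DecTree n) (x : Fin n × Bool) (hx : ∀ w, T.par w ≠ some x)
    (v : Fin n) (hv : v ≠ x.1) : typ (ext T x hx) v.succ = typ T v := by
  have h : ∀ b, (x = (v, b)) ↔ False := by
    intro b
    constructor
    · rintro h; exact hv (by rw [h])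
    · exact False.elim
  have h2 : ∀ b, Has (ext T x hx) v.succ b ↔ Has T v b := by
    intro b
    rw [has_ext_succ, h, or_false]
  exact Prod.ext (decide_eq_decide.2 (h2 true)) (decide_eq_decide.2 (h2 false))

theorem typ_ext_succ_true {n : ℕ} (T : DecTree n) (v : Fin n) (hx : ∀ w, T.par w ≠ some (v, true)) :
    typ (ext T (v, true) hx) v.succ = (true, (typ T v).2) := by
  simp [typ, has_ext_succ]

theorem typ_ext_succ_false {n : ℕ} (T : DecTree n) (v : Fin n)
    (hx : ∀ w, T.par w ≠ some (v, false)) :
    typ (ext T (v, false) hx) v.succ = ((typ T v).1, true) := by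
  simp [typ, has_ext_succ]

/-- change of the number of vertices of a type -/
theorem cnt_ext {n : ℕ} (T : DecTree n) (x : Fin n × Bool) (hx : ∀ w, T.par w ≠ some x)
    (c : Bool × Bool) (hc : c ≠ (false, false)) :
    cnt (typ (ext T x hx)) c + (if typ T x.1 = c then 1 else 0) =
      cnt (typ T) c + (if typ (ext T x hx) x.1.succ = c then 1 else 0) := by
  unfold cnt
  rw [Fin.sum_univ_succ, typ_ext_zero, if_neg (Ne.symm hc), zero_add,
    ← Finset.add_sum_erase Finset.univ _ (Finset.mem_univ x.1),
    ← Finset.add_sum_erase Finset.univ (fun v => if typ T v = c then 1 else 0)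
      (Finset.mem_univ x.1)]
  have : ∑ v ∈ Finset.univ.erase x.1, (if typ (ext T x hx) v.succ = c then 1 else 0) =
      ∑ v ∈ Finset.univ.erase x.1, (if typ T v = c then 1 else 0) := by
    refine Finset.sum_congr rfl fun v hv => ?_
    rw [typ_ext_succ_ne T x hx v (Finset.ne_of_mem_erase hv)]
  rw [this]
  ring

theorem rightEdges_eq {n : ℕ} (T : DecTree n) : T.rightEdges =
    ∑ w, if (T.par w).map Prod.snd = some true then 1 else 0 := by
  classical
  unfold DecTree.rightEdges
  rw [Nat.card_eq_fintype_card, Fintype.card_subtype, Finset.card_filter]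
  refine Finset.sum_congr rfl fun w _ => ?_
  congr 1
  simp only [Option.map_eq_some_iff, Prod.exists, exists_eq_right]

theorem rightEdges_ext {n : ℕ} (T : DecTree n) (x : Fin n × Bool) (hx : ∀ w, T.par w ≠ some x) :
    (ext T x hx).rightEdges = T.rightEdges + if x.2 = true then 1 else 0 := by
  rw [rightEdges_eq, rightEdges_eq, Fin.sum_univ_succ, ext_par_zero, add_comm]
  simp only [ext_par_succ, Option.map_map, Option.map_some, Option.some.injEq]
  rfl

/-- the slot is free -/
theorem free_iff {n : ℕ} (T : DecTree n) (v : Fin n) (b : Bool) :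
    (∀ w, T.par w ≠ some (v, b)) ↔ ¬ Has T v b := by
  unfold Has; push Not; rfl

theorem typ_fst {n : ℕ} (T : DecTree n) (v : Fin n) : (typ T v).1 = false ↔ ¬ Has T v true := by
  simp [typ]

theorem typ_snd {n : ℕ} (T : DecTree n) (v : Fin n) : (typ T v).2 = false ↔ ¬ Has T v false := by
  simp [typ]

/-- all the cases -/
theorem ext_cases {n : ℕ} (T : DecTree n) (x : Fin n × Bool) (hx : ∀ w, T.par w ≠ some x) :
    (x.2 = true ∧ typ T x.1 = (false, false) ∧ (ext T x hx).nR = T.nR + 1 ∧
      (ext T x hx).nL = T.nL ∧ (ext T x hx).nD = T.nD) ∨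
    (x.2 = false ∧ typ T x.1 = (false, false) ∧ (ext T x hx).nR = T.nR ∧
      (ext T x hx).nL = T.nL + 1 ∧ (ext T x hx).nD = T.nD) ∨
    (x.2 = true ∧ typ T x.1 = (false, true) ∧ (ext T x hx).nR = T.nR ∧
      (ext T x hx).nL + 1 = T.nL ∧ (ext T x hx).nD = T.nD + 1) ∨
    (x.2 = false ∧ typ T x.1 = (true, false) ∧ (ext T x hx).nR + 1 = T.nR ∧
      (ext T x hx).nL = T.nL ∧ (ext T x hx).nD = T.nD + 1) := by
  simp only [nR_eq, nL_eq, nD_eq]
  have h1 := cnt_ext T x hx (true, false) (by simp)
  have h2 := cnt_ext T x hx (false, true) (by simp)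
  have h3 := cnt_ext T x hx (true, true) (by simp)
  obtain ⟨v, b⟩ := x
  rw [free_iff] at hx
  rcases b with _ | _
  · have h4 := typ_ext_succ_false T v ((free_iff T v false).2 hx)
    have h5 := (typ_snd T v).2 hx
    simp only at h1 h2 h3 ⊢
    rw [h4] at h1 h2 h3
    rcases h6 : typ T v with ⟨a, c⟩
    rw [h6] at h1 h2 h3 h5
    simp only at h5
    subst h5
    rcases a with _ | _
    · right; left
      simp at h1 h2 h3
      simp [h1, h2, h3]
    · right; right; right
      simp at h1 h2 h3
      simp [h1, h2, h3]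
  · have h4 := typ_ext_succ_true T v ((free_iff T v true).2 hx)
    have h5 := (typ_fst T v).2 hx
    simp only at h1 h2 h3 ⊢
    rw [h4] at h1 h2 h3
    rcases h6 : typ T v with ⟨a, c⟩
    rw [h6] at h1 h2 h3 h5
    simp only at h5
    subst h5
    rcases c with _ | _
    · left
      simp at h1 h2 h3
      simp [h1, h2, h3]
    · right; right; left
      simp at h1 h2 h3
      simp [h1, h2, h3]

/-- the pairs (tree, free slot) -/
abbrev Slots (n : ℕ) := Σ T : DecTree n, {x : Fin n × Bool // ∀ w, T.par w ≠ some x}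

theorem ext_bij (m : ℕ) : Function.Bijective
    (fun p : Slots (m + 1) => ext p.1 p.2.1 p.2.2) := by
  constructor
  · rintro ⟨T, x, hx⟩ ⟨U, y, hy⟩ h
    simp only at h
    have h0 : (ext T x hx).par = (ext U y hy).par := by rw [h]
    have h1 : x = y := by
      have := congrFun h0 0
      rw [ext_par_zero, ext_par_zero] at this
      simp only [Option.some.injEq, Prod.mk.injEq, Fin.succ_inj] at this
      exact Prod.ext this.1 this.2
    have h2 : T = U := by
      refine DecTree.ext' (funext fun v => ?_)
      have := congrFun h0 v.succ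
      rw [ext_par_succ, ext_par_succ] at this
      refine Option.map_injective ?_ this
      rintro ⟨a, b⟩ ⟨c, d⟩ h3
      simp only [Prod.mk.injEq, Fin.succ_inj] at h3
      exact Prod.ext h3.1 h3.2
    subst h1 h2
    rfl
  · intro T'
    have hsucc : ∀ v p s, T'.par v = some (p, s) → ∃ p', p = Fin.succ p' := by
      intro v p s h
      have := T'.lt_par v p s h
      exact ⟨p.pred (by rintro rfl; exact absurd this (by simp)), by simp⟩
    have h0 : T'.par 0 ≠ none := by
      intro h0
      obtain ⟨r, hr, hu⟩ := T'.root_unique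
      have h1 := hu 0 h0
      have h2 : T'.par (Fin.last (m + 1)) = none := by
        rcases h3 : T'.par (Fin.last (m + 1)) with _ | ⟨p, s⟩
        · rfl
        · exact absurd (T'.lt_par _ _ _ h3) (not_lt.2 (Fin.le_last p))
      have h3 := hu _ h2
      rw [← h1] at h3
      exact absurd h3 (by simp [Fin.ext_iff])
    obtain ⟨⟨p0, s0⟩, hp0⟩ := Option.ne_none_iff_exists'.1 h0
    obtain ⟨q0, rfl⟩ := hsucc 0 p0 s0 hp0
    let g : Fin (m + 2) → Fin (m + 1) := fun p => if h : p = 0 then 0 else p.pred h
    have hg : ∀ p : Fin (m + 1), g p.succ = p := by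
      intro p
      simp only [g]
      rw [dif_neg (Fin.succ_ne_zero p), Fin.pred_succ]
    have hT : ∀ (v : Fin (m + 1)) x, (T'.par v.succ).map (fun y => (g y.1, y.2)) = some x →
        T'.par v.succ = some (Fin.succ x.1, x.2) := by
      intro v x h
      simp only [Option.map_eq_some_iff, Prod.exists] at h
      obtain ⟨a, b, hab, h1⟩ := h
      obtain ⟨a', rfl⟩ := hsucc _ _ _ hab
      rw [hg] at h1
      rw [hab, ← h1]
    let T : DecTree (m + 1) :=
      { par := fun v => (T'.par v.succ).map (fun y => (g y.1, y.2))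
        root_unique := by
          obtain ⟨r, hr, hu⟩ := T'.root_unique
          have hr0 : r ≠ 0 := by rintro rfl; exact h0 hr
          refine ⟨r.pred hr0, ?_, ?_⟩
          · simp only [Fin.succ_pred, hr, Option.map_none]
          · intro v hv
            simp only [Option.map_eq_none_iff] at hv
            have := hu _ hv
            rw [← Fin.succ_inj, this, Fin.succ_pred]
        lt_par := by
          intro v p s h
          have := T'.lt_par _ _ _ (hT v (p, s) h)
          exact Fin.succ_lt_succ_iff.1 this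
        inj := by
          intro v w x h1 h2
          have := T'.inj _ _ _ (hT v x h1) (hT w x h2)
          exact Fin.succ_inj.1 this }
    have hfree : ∀ w, T.par w ≠ some (q0, s0) := by
      intro w h
      have := hT w _ h
      have h3 := T'.inj _ _ _ this hp0
      exact Fin.succ_ne_zero w h3
    refine ⟨⟨T, (q0, s0), hfree⟩, ?_⟩
    refine DecTree.ext' (funext fun v => ?_)
    refine Fin.cases ?_ (fun v => ?_) v
    · rw [ext_par_zero, hp0]
    · rw [ext_par_succ]
      rcases h : T'.par v.succ with _ | ⟨p, s⟩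
      · simp [T, h]
      · obtain ⟨p', rfl⟩ := hsucc _ _ _ h
        simp [T, h, hg]

end CA

open CA

theorem sf : SF := by
  intro n
  induction n with
  | zero =>
    intro T
    obtain ⟨r, -, -⟩ := T.root_unique
    exact r.elim0
  | succ n ih =>
    intro T
    rcases n with _ | m
    · have hno : ∀ v, T.par v = none := by
        intro v
        rcases h : T.par v with _ | ⟨p, s⟩
        · rfl
        · have := T.lt_par _ _ _ h
          exact absurd this (by rw [Fin.lt_def]; omega)
      have h1 : ∀ v b, ¬ Has T v b := by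
        rintro v b ⟨w, hw⟩
        rw [hno] at hw; cases hw
      have h2 : ∀ v, typ T v = (false, false) := by intro v; simp [typ, h1]
      rw [rightEdges_eq, nR_eq, nL_eq, nD_eq]
      simp [cnt, h2, hno]
    · obtain ⟨⟨U, x, hx⟩, rfl⟩ := (ext_bij m).2 T
      simp only
      have h1 := ih U
      have h2 := ext_cases U x hx
      rw [rightEdges_ext]
      rcases h2 with ⟨h, -, h3, h4, h5⟩ | ⟨h, -, h3, h4, h5⟩ | ⟨h, -, h3, h4, h5⟩ |
        ⟨h, -, h3, h4, h5⟩ <;> rw [h] <;> simp <;> omega

theorem CA.cnt_total {n : ℕ} (f : Fin n → Bool × Bool) :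
    cnt f (true, false) + cnt f (false, true) + cnt f (true, true) + cnt f (false, false) = n := by
  unfold cnt
  rw [← Finset.sum_add_distrib, ← Finset.sum_add_distrib, ← Finset.sum_add_distrib]
  have : ∀ v, ((((if f v = (true, false) then 1 else 0) + (if f v = (false, true) then 1 else 0)) +
      (if f v = (true, true) then 1 else 0)) + (if f v = (false, false) then 1 else 0)) = 1 := by
    intro v
    rcases f v with ⟨a, b⟩
    rcases a with _ | _ <;> rcases b with _ | _ <;> simp
  simp [this]

theorem sa : SA := by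
  classical
  intro m G
  rw [← Fintype.sum_bijective _ (ext_bij m) (fun p => G (ext p.1 p.2.1 p.2.2).nR
    (ext p.1 p.2.1 p.2.2).nL (ext p.1 p.2.1 p.2.2).nD) _ (fun _ => rfl)]
  rw [Fintype.sum_sigma]
  refine Finset.sum_congr rfl fun T _ => ?_
  -- the sum over the free slots
  have h1 : ∀ x : {x : Fin (m + 1) × Bool // ∀ w, T.par w ≠ some x},
      G (ext T x.1 x.2).nR (ext T x.1 x.2).nL (ext T x.1 x.2).nD =
      (fun x : Fin (m + 1) × Bool =>
        if typ T x.1 = (false, false) then
          (if x.2 = true then G (T.nR + 1) T.nL T.nD else G T.nR (T.nL + 1) T.nD)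
        else if typ T x.1 = (false, true) then G T.nR (T.nL - 1) (T.nD + 1)
        else G (T.nR - 1) T.nL (T.nD + 1)) x.1 := by
    rintro ⟨x, hx⟩
    simp only
    rcases ext_cases T x hx with ⟨h, h0, h3, h4, h5⟩ | ⟨h, h0, h3, h4, h5⟩ |
      ⟨h, h0, h3, h4, h5⟩ | ⟨h, h0, h3, h4, h5⟩
    · rw [h0, h, h3, h4, h5]; simp
    · rw [h0, h, h3, h4, h5]; simp
    · rw [h0, h3, ← h4, h5]; simp
    · rw [h0, h4, ← h3, h5]; simp
  rw [Finset.sum_congr rfl (fun x _ => h1 x)]
  rw [← Finset.sum_subtype (Finset.univ.filter (fun x : Fin (m + 1) × Bool =>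
    ∀ w, T.par w ≠ some x)) (by simp) (fun x : Fin (m + 1) × Bool =>
        if typ T x.1 = (false, false) then
          (if x.2 = true then G (T.nR + 1) T.nL T.nD else G T.nR (T.nL + 1) T.nD)
        else if typ T x.1 = (false, true) then G T.nR (T.nL - 1) (T.nD + 1)
        else G (T.nR - 1) T.nL (T.nD + 1))]
  rw [Finset.sum_filter, Fintype.sum_prod_type]
  have h2 : ∀ v : Fin (m + 1), (∑ b : Bool, if (∀ w, T.par w ≠ some (v, b)) then
      (if typ T v = (false, false) then
          (if b = true then G (T.nR + 1) T.nL T.nD else G T.nR (T.nL + 1) T.nD)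
        else if typ T v = (false, true) then G T.nR (T.nL - 1) (T.nD + 1)
        else G (T.nR - 1) T.nL (T.nD + 1)) else 0) =
      (if typ T v = (false, false) then 1 else 0) *
        (G (T.nR + 1) T.nL T.nD + G T.nR (T.nL + 1) T.nD) +
      (if typ T v = (false, true) then 1 else 0) * G T.nR (T.nL - 1) (T.nD + 1) +
      (if typ T v = (true, false) then 1 else 0) * G (T.nR - 1) T.nL (T.nD + 1) := by
    intro v
    have e1 : (∀ w, T.par w ≠ some (v, true)) ↔ (typ T v).1 = false := by
      rw [free_iff, typ_fst]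
    have e2 : (∀ w, T.par w ≠ some (v, false)) ↔ (typ T v).2 = false := by
      rw [free_iff, typ_snd]
    rw [Fintype.sum_bool]
    simp only [e1, e2]
    rcases typ T v with ⟨a, b⟩
    rcases a with _ | _ <;> rcases b with _ | _ <;> simp
  simp only
  rw [Finset.sum_congr rfl (fun v _ => h2 v), Finset.sum_add_distrib, Finset.sum_add_distrib,
    ← Finset.sum_mul, ← Finset.sum_mul, ← Finset.sum_mul]
  have h3 := cnt_total (typ T)
  have h4 := (sf (m + 1) T).2
  have h5 : cnt (typ T) (false, false) = T.nD + 1 := by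
    rw [← nR_eq, ← nL_eq, ← nD_eq] at h3
    omega
  have h6 : ∑ v, (if typ T v = (false, false) then 1 else 0) = T.nD + 1 := h5
  have h7 : ∑ v, (if typ T v = (false, true) then 1 else 0) = T.nL := (nL_eq T).symm
  have h8 : ∑ v, (if typ T v = (true, false) then 1 else 0) = T.nR := (nR_eq T).symm
  rw [h6, h7, h8]

end R218.BE
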