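import Pool.Agent.R218.BE.Stm

/-!
Boolean–Eulerian numbers: from the tree recursion to the explicit formula (helper451)
-/

open scoped BigOperators Nat

namespace R218.BE

namespace CountB

def ind (r s t a b c : ℕ) : ℕ := if a = r ∧ b = s ∧ c = t then 1 else 0

noncomputable def C (n r s t : ℕ) : ℕ := ∑ T : DecTree n, ind r s t T.nR T.nL T.nD

lemma l1 (r s t a b c : ℕ) : (c + 1) * ind r s t (a + 1) b c =
    (t + 1) * (if r = 0 then 0 else ind (r - 1) s t a b c) := by
  unfold ind
  by_cases h : a + 1 = r ∧ b = s ∧ c = t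
  · obtain ⟨rfl, rfl, rfl⟩ := h
    simp
  · rw [if_neg h]
    by_cases hr : r = 0
    · simp [hr]
    · rw [if_neg hr, if_neg (by omega)]
      simp

lemma l2 (r s t a b c : ℕ) : (c + 1) * ind r s t a (b + 1) c =
    (t + 1) * (if s = 0 then 0 else ind r (s - 1) t a b c) := by
  unfold ind
  by_cases h : a = r ∧ b + 1 = s ∧ c = t
  · obtain ⟨rfl, rfl, rfl⟩ := h
    simp
  · rw [if_neg h]
    by_cases hr : s = 0
    · simp [hr]
    · rw [if_neg hr, if_neg (by omega)]
      simp

lemma l3 (r s t a b c : ℕ) : b * ind r s t a (b - 1) (c + 1) =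
    if t = 0 then 0 else (s + 1) * ind r (s + 1) (t - 1) a b c := by
  unfold ind
  by_cases hb : b = 0
  · subst hb
    by_cases ht : t = 0
    · simp [ht]
    · rw [if_neg ht, if_neg (show ¬ (a = r ∧ 0 = s + 1 ∧ c = t - 1) by omega)]
      simp
  · by_cases h : a = r ∧ b - 1 = s ∧ c + 1 = t
    · obtain ⟨rfl, rfl, rfl⟩ := h
      rw [if_pos ⟨rfl, rfl, rfl⟩, if_neg (by omega), if_pos ⟨rfl, by omega, by omega⟩]
      omega
    · rw [if_neg h]
      by_cases ht : t = 0
      · simp [ht]
      · rw [if_neg ht, if_neg (by omega)]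
        simp

lemma l4 (r s t a b c : ℕ) : a * ind r s t (a - 1) b (c + 1) =
    if t = 0 then 0 else (r + 1) * ind (r + 1) s (t - 1) a b c := by
  unfold ind
  by_cases hb : a = 0
  · subst hb
    by_cases ht : t = 0
    · simp [ht]
    · rw [if_neg ht, if_neg (show ¬ (0 = r + 1 ∧ b = s ∧ c = t - 1) by omega)]
      simp
  · by_cases h : a - 1 = r ∧ b = s ∧ c + 1 = t
    · obtain ⟨rfl, rfl, rfl⟩ := h
      rw [if_pos ⟨rfl, rfl, rfl⟩, if_neg (by omega), if_pos ⟨by omega, rfl, by omega⟩]
      omega
    · rw [if_neg h]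
      by_cases ht : t = 0
      · simp [ht]
      · rw [if_neg ht, if_neg (by omega)]
        simp

lemma C_rec (hSA : SA) (m r s t : ℕ) : C (m + 2) r s t =
    (t + 1) * (if r = 0 then 0 else C (m + 1) (r - 1) s t) +
    (t + 1) * (if s = 0 then 0 else C (m + 1) r (s - 1) t) +
    (if t = 0 then 0 else (s + 1) * C (m + 1) r (s + 1) (t - 1)) +
    (if t = 0 then 0 else (r + 1) * C (m + 1) (r + 1) s (t - 1)) := by
  have e1 : (t + 1) * (if r = 0 then 0 else C (m + 1) (r - 1) s t) =
      ∑ T : DecTree (m + 1), (T.nD + 1) * ind r s t (T.nR + 1) T.nL T.nD := by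
    simp only [l1]
    by_cases hr : r = 0
    · simp [hr]
    · simp only [if_neg hr, C, Finset.mul_sum]
  have e2 : (t + 1) * (if s = 0 then 0 else C (m + 1) r (s - 1) t) =
      ∑ T : DecTree (m + 1), (T.nD + 1) * ind r s t T.nR (T.nL + 1) T.nD := by
    simp only [l2]
    by_cases hr : s = 0
    · simp [hr]
    · simp only [if_neg hr, C, Finset.mul_sum]
  have e3 : (if t = 0 then 0 else (s + 1) * C (m + 1) r (s + 1) (t - 1)) =
      ∑ T : DecTree (m + 1), T.nL * ind r s t T.nR (T.nL - 1) (T.nD + 1) := by
    simp only [l3]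
    by_cases hr : t = 0
    · simp [hr]
    · simp only [if_neg hr, C, Finset.mul_sum]
  have e4 : (if t = 0 then 0 else (r + 1) * C (m + 1) (r + 1) s (t - 1)) =
      ∑ T : DecTree (m + 1), T.nR * ind r s t (T.nR - 1) T.nL (T.nD + 1) := by
    simp only [l4]
    by_cases hr : t = 0
    · simp [hr]
    · simp only [if_neg hr, C, Finset.mul_sum]
  rw [e1, e2, e3, e4]
  unfold C
  rw [hSA m (ind r s t), ← Finset.sum_add_distrib, ← Finset.sum_add_distrib,
    ← Finset.sum_add_distrib]
  refine Finset.sum_congr rfl fun T _ => ?_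
  ring

lemma C_one (hSF : SF) : C 1 0 0 0 = 1 := by
  unfold C
  have h : ∀ T : DecTree 1, ind 0 0 0 T.nR T.nL T.nD = 1 := by
    intro T
    have := (hSF 1 T).2
    unfold ind
    rw [if_pos (by omega)]
  simp only [h, Finset.sum_const, smul_eq_mul, mul_one]
  rw [Finset.card_univ, ← Nat.card_eq_fintype_card, Nat.card_eq_one_iff_unique]
  constructor
  · constructor
    intro T U
    apply DecTree.ext'
    funext v
    obtain ⟨r, hr, -⟩ := T.root_unique
    obtain ⟨r', hr', -⟩ := U.root_unique
    rw [Subsingleton.elim v r, hr, Subsingleton.elim r r', hr']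
  · exact ⟨⟨fun _ => none, ⟨0, rfl, fun _ _ => Subsingleton.elim _ _⟩, by simp, by simp⟩⟩

lemma key (hSA : SA) (hSF : SF) : ∀ n r s t : ℕ, n = r + s + 2 * t + 1 →
    C n r s t * (2 ^ t * (r ! * s !)) = H t (r + s) := by
  intro n
  induction n with
  | zero => intro r s t h; omega
  | succ n ih =>
    intro r s t h
    rcases n with _ | m
    · have h1 : r = 0 := by omega
      have h2 : s = 0 := by omega
      have h3 : t = 0 := by omega
      subst h1 h2 h3
      rw [C_one hSF]
      simp [H]
    · rw [C_rec hSA]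
      have f1 : (if r = 0 then 0 else C (m + 1) (r - 1) s t) * (2 ^ t * (r ! * s !)) =
          r * H t (r + s - 1) := by
        rcases r with _ | r
        · simp
        · have h1 := ih r s t (by omega)
          rw [if_neg (by omega), show r + 1 + s - 1 = r + s by omega, ← h1,
            Nat.factorial_succ, Nat.add_sub_cancel]
          ring
      have f2 : (if s = 0 then 0 else C (m + 1) r (s - 1) t) * (2 ^ t * (r ! * s !)) =
          s * H t (r + s - 1) := by
        rcases s with _ | s
        · simp
        · have h1 := ih r s t (by omega)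
          rw [if_neg (by omega), show r + (s + 1) - 1 = r + s by omega, ← h1,
            Nat.factorial_succ, Nat.add_sub_cancel]
          ring
      have f3 : (if t = 0 then 0 else (s + 1) * C (m + 1) r (s + 1) (t - 1)) *
          (2 ^ t * (r ! * s !)) = if t = 0 then 0 else 2 * H (t - 1) (r + s + 1) := by
        rcases t with _ | t
        · simp
        · have h1 := ih r (s + 1) t (by omega)
          rw [if_neg (by omega), if_neg (by omega), Nat.add_sub_cancel,
            show r + s + 1 = r + (s + 1) by omega, ← h1, Nat.factorial_succ s]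
          ring
      have f4 : (if t = 0 then 0 else (r + 1) * C (m + 1) (r + 1) s (t - 1)) *
          (2 ^ t * (r ! * s !)) = if t = 0 then 0 else 2 * H (t - 1) (r + s + 1) := by
        rcases t with _ | t
        · simp
        · have h1 := ih (r + 1) s t (by omega)
          rw [if_neg (by omega), if_neg (by omega), Nat.add_sub_cancel,
            show r + s + 1 = r + 1 + s by omega, ← h1, Nat.factorial_succ r]
          ring
      rw [add_mul, add_mul, add_mul, mul_assoc, f1, mul_assoc, f2, f3, f4]
      rcases t with _ | t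
      · obtain ⟨D, hD⟩ : ∃ D, r + s = D + 1 := ⟨m, by omega⟩
        have hf : (r + s)! = (r + s) * (r + s - 1)! := by
          rw [hD, Nat.factorial_succ, Nat.add_sub_cancel]
        simp only [H, if_true]
        rw [hf]
        ring
      · rw [if_neg (by omega), Nat.add_sub_cancel]
        rcases Nat.eq_zero_or_pos (r + s) with h0 | h0
        · have h1 : r = 0 := by omega
          have h2 : s = 0 := by omega
          subst h1 h2
          simp only [H, Nat.add_zero, Nat.zero_add]
          ring
        · obtain ⟨D, hD⟩ : ∃ D, r + s = D + 1 := ⟨r + s - 1, by omega⟩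
          rw [hD, Nat.add_sub_cancel, H, ← hD]
          have : D + 2 = r + s + 1 := by omega
          rw [this]
          ring

/-- forgetting the packaging of a bicolored tree -/
def biEquiv (n : ℕ) (P : DecTree n → Prop) : {B : BiTree n // P B.tree} ≃
    Σ T : {T : DecTree n // P T}, ({v : Fin n // T.1.Two v} → Bool) where
  toFun B := ⟨⟨B.1.tree, B.2⟩, B.1.color⟩
  invFun x := ⟨⟨x.1.1, x.2⟩, x.1.2⟩
  left_inv _ := rfl
  right_inv _ := rfl

lemma BoEl_eq (n k : ℕ) : BoEl n (k + 1) =
    ∑ T : DecTree n, if T.rightEdges = k then 2 ^ T.nD else 0 := by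
  classical
  unfold BoEl
  rw [Nat.card_congr (biEquiv n fun T => T.rightEdges + 1 = k + 1), Nat.card_sigma]
  have h : ∀ T : DecTree n, Nat.card ({v : Fin n // T.Two v} → Bool) = 2 ^ T.nD := by
    intro T
    rw [Nat.card_fun]
    simp [DecTree.nD]
  simp only [h]
  rw [← Finset.sum_filter, ← Finset.sum_subtype (p := fun T => T.rightEdges + 1 = k + 1)
    (s := Finset.univ.filter fun T : DecTree n => T.rightEdges = k) (f := fun T => 2 ^ T.nD)]
  intro T
  simp

end CountB

open CountB in
theorem sb : SB := by
  intro hSA hSF k l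
  have h1 : BoEl (k + l + 1) (k + 1) = ∑ t ∈ Finset.range (k + 1),
      if t ≤ l then 2 ^ t * C (k + l + 1) (k - t) (l - t) t else 0 := by
    rw [BoEl_eq]
    have h2 : ∀ T : DecTree (k + l + 1), (if T.rightEdges = k then 2 ^ T.nD else 0) =
        ∑ t ∈ Finset.range (k + 1),
          if t ≤ l then 2 ^ t * ind (k - t) (l - t) t T.nR T.nL T.nD else 0 := by
      intro T
      obtain ⟨h3, h4⟩ := hSF _ T
      rw [h3]
      by_cases h5 : T.nR + T.nD = k
      · rw [if_pos h5, Finset.sum_eq_single T.nD]
        · rw [if_pos (by omega)]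
          unfold ind
          rw [if_pos ⟨by omega, by omega, rfl⟩, mul_one]
        · intro t _ ht
          unfold ind
          rw [if_neg (show ¬ (T.nR = k - t ∧ T.nL = l - t ∧ T.nD = t) by omega)]
          simp
        · intro h6
          exact absurd (Finset.mem_range.2 (by omega)) h6
      · rw [if_neg h5]
        symm
        apply Finset.sum_eq_zero
        intro t ht
        have := Finset.mem_range.1 ht
        unfold ind
        rw [if_neg (show ¬ (T.nR = k - t ∧ T.nL = l - t ∧ T.nD = t) by omega)]
        simp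
    simp only [h2]
    rw [Finset.sum_comm]
    refine Finset.sum_congr rfl fun t _ => ?_
    by_cases h5 : t ≤ l
    · simp only [if_pos h5, C, Finset.mul_sum]
    · simp only [if_neg h5, Finset.sum_const_zero]
  rw [h1]
  push_cast
  refine Finset.sum_congr rfl fun t ht => ?_
  have ht' := Finset.mem_range.1 ht
  by_cases h5 : t ≤ l
  · rw [if_pos h5, if_pos h5]
    have h6 := key hSA hSF (k + l + 1) (k - t) (l - t) t (by omega)
    rw [← h6]
    have h7 : ((k - t)! : ℚ) ≠ 0 := by exact_mod_cast (Nat.factorial_pos _).ne'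
    have h8 : ((l - t)! : ℚ) ≠ 0 := by exact_mod_cast (Nat.factorial_pos _).ne'
    push_cast
    field_simp
  · rw [if_neg h5, if_neg h5]

end R218.BE
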