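import Mathlib

/-!
Boolean–Eulerian numbers: decreasing binary trees on `n` labels, given by their parent maps.
-/

namespace R218.BE

/-- A decreasing binary tree on the label set `Fin n` (label `v : Fin n` plays the role of the
label `v + 1` of `[n]`).  `par v = none` says that `v` is the root; `par v = some (p, false)`
says that `v` is the left child of `p`, and `par v = some (p, true)` says that `v` is the right
child of `p`.  There is exactly one root, every vertex is smaller than its parent, and no vertex
has two left children or two right children.  (As every non-root has a larger parent, climbing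
from any vertex ends at the root, so this is indeed a rooted tree.) -/
structure DecTree (n : ℕ) where
  /-- the parent of a vertex, with the side on which it hangs -/
  par : Fin n → Option (Fin n × Bool)
  root_unique : ∃! r, par r = none
  lt_par : ∀ v p s, par v = some (p, s) → v < p
  inj : ∀ v w x, par v = some x → par w = some x → v = w

/-- `v` has two children. -/
def DecTree.Two {n : ℕ} (T : DecTree n) (v : Fin n) : Prop :=
  (∃ w, T.par w = some (v, false)) ∧ ∃ w, T.par w = some (v, true)

/-- number of right edges, i.e. of vertices that are right children -/
noncomputable def DecTree.rightEdges {n : ℕ} (T : DecTree n) : ℕ :=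
  Nat.card {w : Fin n // ∃ p, T.par w = some (p, true)}

/-- A bicolored decreasing binary tree: each vertex with two children gets one of two colors. -/
structure BiTree (n : ℕ) where
  tree : DecTree n
  color : {v : Fin n // tree.Two v} → Bool

/-- The Boolean–Eulerian number: bicolored decreasing binary trees on `n` labels with exactly
`k - 1` right edges (`1 ≤ k`). -/
noncomputable def BoEl (n k : ℕ) : ℕ :=
  Nat.card {B : BiTree n // B.tree.rightEdges + 1 = k}

/-- auxiliary array: `H i D` -/
def H : ℕ → ℕ → ℕ
  | 0, D => D.factorial
  | i + 1, 0 => 4 * H i 1
  | i + 1, D + 1 => (i + 2) * (D + 1) * H (i + 1) D + 4 * H i (D + 2)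

/-- number of vertices with only a right child -/
noncomputable def DecTree.nR {n : ℕ} (T : DecTree n) : ℕ :=
  Nat.card {v : Fin n // (∃ w, T.par w = some (v, true)) ∧ ¬ ∃ w, T.par w = some (v, false)}

/-- number of vertices with only a left child -/
noncomputable def DecTree.nL {n : ℕ} (T : DecTree n) : ℕ :=
  Nat.card {v : Fin n // (∃ w, T.par w = some (v, false)) ∧ ¬ ∃ w, T.par w = some (v, true)}

/-- number of vertices with two children -/
noncomputable def DecTree.nD {n : ℕ} (T : DecTree n) : ℕ :=
  Nat.card {v : Fin n // T.Two v}

theorem DecTree.ext' {n : ℕ} {T U : DecTree n} (h : T.par = U.par) : T = U := by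
  cases T; cases U; simp_all

instance (n : ℕ) : Finite (DecTree n) :=
  Finite.of_injective (fun T : DecTree n => T.par) (fun _ _ h => DecTree.ext' h)

noncomputable instance (n : ℕ) : Fintype (DecTree n) := Fintype.ofFinite _

end R218.BE
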