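import Pool.Agent.R218.BE.Defs

open scoped BigOperators Nat

namespace R218.BE

lemma H_pos : ∀ i D : ℕ, 0 < H i D
  | 0, D => by simp only [H]; exact Nat.factorial_pos D
  | i + 1, 0 => by
      simp only [H]
      have := H_pos i 1
      omega
  | i + 1, D + 1 => by
      simp only [H]
      have := H_pos i (D + 2)
      omega

lemma Hq_pos (i D : ℕ) : (0 : ℚ) < H i D := by exact_mod_cast H_pos i D

lemma H_zero (D : ℕ) : H 0 D = D ! := by simp [H]
lemma H_s0 (i : ℕ) : (H (i + 1) 0 : ℚ) = 4 * H i 1 := by simp [H]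
lemma H_ss (i D : ℕ) : (H (i + 1) (D + 1) : ℚ)
    = ((i : ℚ) + 2) * ((D : ℚ) + 1) * H (i + 1) D + 4 * H i (D + 2) := by
  simp [H]

/-- ratio in the second argument -/
def tt (j D : ℕ) : ℚ := (H j (D + 1) : ℚ) / H j D
/-- mixed ratio -/
def vv (j D : ℕ) : ℚ := ((j : ℚ) + 2) * (H (j + 1) D : ℚ) / H j (D + 1)

lemma tt_pos (j D : ℕ) : 0 < tt j D := div_pos (Hq_pos _ _) (Hq_pos _ _)
lemma vv_pos (j D : ℕ) : 0 < vv j D := by
  unfold vv
  have := Hq_pos (j + 1) D
  have := Hq_pos j (D + 1)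
  positivity

lemma tt_zero (D : ℕ) : tt 0 D = (D : ℚ) + 1 := by
  unfold tt
  rw [H_zero, H_zero, Nat.factorial_succ]
  have : (0 : ℚ) < (D ! : ℚ) := by exact_mod_cast Nat.factorial_pos D
  push_cast
  field_simp

lemma vv_zero (j : ℕ) : vv j 0 = 4 * ((j : ℚ) + 2) := by
  unfold vv
  rw [H_s0]
  have := Hq_pos j 1
  simp only [zero_add]
  field_simp

lemma tt_succ (j D : ℕ) : tt (j + 1) D
    = ((j : ℚ) + 2) * (((D : ℚ) + 1) + 4 * tt j (D + 1) / vv j D) := by
  unfold tt vv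
  rw [H_ss]
  have h1 := Hq_pos (j + 1) D
  have h2 := Hq_pos j (D + 1)
  have h3 := Hq_pos j (D + 2)
  have h4 : (0 : ℚ) < (j : ℚ) + 2 := by positivity
  show _ = ((j : ℚ) + 2) * (((D : ℚ) + 1) + 4 * ((H j (D + 2) : ℚ) / H j (D + 1)) /
    (((j : ℚ) + 2) * (H (j + 1) D : ℚ) / H j (D + 1)))
  field_simp

lemma vv_succ (j D : ℕ) : vv j (D + 1)
    = ((j : ℚ) + 2) * (4 + ((D : ℚ) + 1) * vv j D / tt j (D + 1)) := by
  unfold tt vv
  rw [H_ss]
  have h1 := Hq_pos (j + 1) D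
  have h2 := Hq_pos j (D + 1)
  have h3 := Hq_pos j (D + 2)
  have h4 : (0 : ℚ) < (j : ℚ) + 2 := by positivity
  show ((j : ℚ) + 2) * _ / (H j (D + 2) : ℚ) = ((j : ℚ) + 2) * (4 + ((D : ℚ) + 1) *
    (((j : ℚ) + 2) * (H (j + 1) D : ℚ) / H j (D + 1)) / ((H j (D + 2) : ℚ) / H j (D + 1)))
  field_simp
  ring

lemma star (j D : ℕ) : ((j : ℚ) + 2) * ((D : ℚ) + 1) / tt (j + 1) D
    + 4 * ((j : ℚ) + 2) / vv j (D + 1) = 1 := by
  unfold tt vv
  have h1 := Hq_pos (j + 1) D
  have h2 := Hq_pos (j + 1) (D + 1)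
  have h3 := Hq_pos j (D + 2)
  have h4 : (0 : ℚ) < (j : ℚ) + 2 := by positivity
  have e := H_ss j D
  show ((j : ℚ) + 2) * ((D : ℚ) + 1) / ((H (j + 1) (D + 1) : ℚ) / H (j + 1) D)
    + 4 * ((j : ℚ) + 2) / (((j : ℚ) + 2) * (H (j + 1) (D + 1) : ℚ) / H j (D + 2)) = 1
  field_simp
  linarith

lemma vt (j D : ℕ) : vv j (D + 1) * tt j (D + 1) = vv j D * tt (j + 1) D := by
  unfold tt vv
  have h1 := Hq_pos (j + 1) D
  have h2 := Hq_pos j (D + 1)
  have h3 := Hq_pos j (D + 2)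
  show ((j : ℚ) + 2) * (H (j + 1) (D + 1) : ℚ) / H j (D + 2) * ((H j (D + 2) : ℚ) / H j (D + 1)) =
    ((j : ℚ) + 2) * (H (j + 1) D : ℚ) / H j (D + 1) * ((H (j + 1) (D + 1) : ℚ) / H (j + 1) D)
  field_simp

lemma tt_rec0 (j : ℕ) : tt (j + 1) 0 = tt j 1 + ((j : ℚ) + 2) := by
  unfold tt
  have e := H_ss j 0
  have e0 := H_s0 j
  have h1 := Hq_pos j 1
  have h2 := Hq_pos (j + 1) 0
  simp only [zero_add, Nat.cast_zero, mul_one] at e
  show (H (j + 1) (0 + 1) : ℚ) / H (j + 1) 0 = (H j 2 : ℚ) / H j 1 + ((j : ℚ) + 2)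
  simp only [zero_add]
  rw [e, e0]
  field_simp
  ring

lemma tt_rec (j D : ℕ) : tt (j + 1) (D + 1) = tt j (D + 2) + ((j : ℚ) + 2)
    + ((j : ℚ) + 2) * ((D : ℚ) + 1) / tt (j + 1) D * (tt (j + 1) D - tt j (D + 2)) := by
  have hp := tt_pos (j + 1) D
  unfold tt at *
  have e := H_ss j D
  have e' := H_ss j (D + 1)
  have h1 := Hq_pos (j + 1) D
  have h2 := Hq_pos (j + 1) (D + 1)
  have h3 := Hq_pos j (D + 2)
  have h4 := Hq_pos j (D + 3)
  show (H (j + 1) (D + 1 + 1) : ℚ) / H (j + 1) (D + 1) = (H j (D + 3) : ℚ) / H j (D + 2)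
    + ((j : ℚ) + 2) + ((j : ℚ) + 2) * ((D : ℚ) + 1) / ((H (j + 1) (D + 1) : ℚ) / H (j + 1) D) *
      ((H (j + 1) (D + 1) : ℚ) / H (j + 1) D - (H j (D + 3) : ℚ) / H j (D + 2))
  rw [e']
  push_cast
  field_simp
  have e2 : (4 : ℚ) * H j (D + 2) = H (j + 1) (D + 1)
    - ((j : ℚ) + 2) * ((D : ℚ) + 1) * H (j + 1) D := by linarith
  show _ = _
  have e3 : H j (D + 1 + 2) = H j (D + 3) := rfl
  rw [e3]
  linear_combination (H j (D + 3) : ℚ) * e2

/-! ### invariants -/

lemma U_of_UT (j : ℕ) (hT : ∀ D : ℕ, tt j D ≤ ((j : ℚ) + 1) * ((j : ℚ) + D + 1)) :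
    ∀ D : ℕ, 4 * ((j : ℚ) + 2) * ((j : ℚ) + 1 + D) ≤ ((j : ℚ) + 1) * vv j D := by
  intro D
  induction D with
  | zero =>
    rw [vv_zero]
    apply le_of_eq
    push_cast
    ring
  | succ D ih =>
    rw [vv_succ]
    have hT' := hT (D + 1)
    have ht := tt_pos j (D + 1)
    have hv := vv_pos j D
    have hj : (0 : ℚ) ≤ j := by positivity
    have hD : (0 : ℚ) ≤ D := by positivity
    push_cast at *
    have key : 4 / ((j : ℚ) + 1) ≤ vv j D / tt j (D + 1) := by
      rw [div_le_div_iff₀ (by positivity) ht]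
      have a1 : 4 * tt j (D + 1) ≤ 4 * (((j : ℚ) + 1) * ((j : ℚ) + (D + 1) + 1)) := by linarith
      refine a1.trans ?_
      have a2 : 4 * (((j : ℚ) + 1) * ((j : ℚ) + (D + 1) + 1))
          ≤ 4 * ((j : ℚ) + 2) * ((j : ℚ) + 1 + D) := by
        nlinarith
      linarith
    have h2 : (0 : ℚ) < (j : ℚ) + 2 := by positivity
    have h1 : (0 : ℚ) < (j : ℚ) + 1 := by positivity
    have e1 : ((j : ℚ) + 1) * (((j : ℚ) + 2) * (4 + ((D : ℚ) + 1) * vv j D / tt j (D + 1)))
        = ((j : ℚ) + 1) * ((j : ℚ) + 2) * (4 + ((D : ℚ) + 1) * (vv j D / tt j (D + 1))) := by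
      ring
    rw [e1]
    have e2 : 4 * ((j : ℚ) + 2) * ((j : ℚ) + 1 + (D + 1))
        = ((j : ℚ) + 1) * ((j : ℚ) + 2) * (4 + ((D : ℚ) + 1) * (4 / ((j : ℚ) + 1))) := by
      field_simp
    rw [e2]
    apply mul_le_mul_of_nonneg_left _ (by positivity)
    have := mul_le_mul_of_nonneg_left key (by positivity : (0 : ℚ) ≤ (D : ℚ) + 1)
    linarith

/-! ### invariants -/

lemma UT_U (j : ℕ) : (∀ D : ℕ, tt j D ≤ ((j : ℚ) + 1) * ((j : ℚ) + D + 1)) ∧
    (∀ D : ℕ, 4 * ((j : ℚ) + 2) * ((j : ℚ) + 1 + D) ≤ ((j : ℚ) + 1) * vv j D) := by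
  induction j with
  | zero =>
    have h1 : ∀ D : ℕ, tt 0 D ≤ ((0 : ℕ) + 1 : ℚ) * ((0 : ℕ) + D + 1 : ℚ) := by
      intro D
      rw [tt_zero]
      push_cast
      linarith
    refine ⟨h1, ?_⟩
    exact U_of_UT 0 h1
  | succ j ih =>
    have h1 : ∀ D : ℕ, tt (j + 1) D ≤ (((j + 1 : ℕ) : ℚ) + 1) * (((j + 1 : ℕ) : ℚ) + D + 1) := by
      intro D
      rw [tt_succ]
      have hT := ih.1 (D + 1)
      have hV := ih.2 D
      have hv := vv_pos j D
      have hj : (0 : ℚ) ≤ j := by positivity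
      have hD : (0 : ℚ) ≤ D := by positivity
      push_cast at *
      have key : 4 * tt j (D + 1) / vv j D ≤ (j : ℚ) + 1 := by
        rw [div_le_iff₀ hv]
        have a1 : 4 * tt j (D + 1) ≤ 4 * (((j : ℚ) + 1) * ((j : ℚ) + (D + 1) + 1)) := by linarith
        refine a1.trans ?_
        have a2 : 4 * (((j : ℚ) + 1) * ((j : ℚ) + (D + 1) + 1)) ≤ 4 * ((j : ℚ) + 2) * ((j : ℚ) + 1 + D) := by
          nlinarith
        linarith
      have h2 : (0 : ℚ) < (j : ℚ) + 2 := by positivity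
      have : ((j : ℚ) + 2) * (((D : ℚ) + 1) + 4 * tt j (D + 1) / vv j D)
          ≤ ((j : ℚ) + 2) * (((D : ℚ) + 1) + ((j : ℚ) + 1)) :=
        mul_le_mul_of_nonneg_left (by linarith) h2.le
      refine this.trans (le_of_eq ?_)
      ring
    exact ⟨h1, U_of_UT (j + 1) h1⟩

lemma vv_lower (j D : ℕ) : 4 * ((j : ℚ) + 2) * ((j : ℚ) + 1 + D) ≤ ((j : ℚ) + 1) * vv j D :=
  (UT_U j).2 D

/-- monotonicity of the second ratio from that of the first -/
lemma vv_mono_of (j D : ℕ) (h : tt j (D + 2) ≤ tt (j + 1) D) : vv j (D + 1) ≤ vv j (D + 2) := by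
  have e := vt j (D + 1)
  have h1 := tt_rec j D
  have hp := tt_pos (j + 1) D
  have hp2 := tt_pos j (D + 2)
  have hv := vv_pos j (D + 1)
  have h2 : tt j (D + 2) ≤ tt (j + 1) (D + 1) := by
    rw [h1]
    have : 0 ≤ ((j : ℚ) + 2) * ((D : ℚ) + 1) / tt (j + 1) D * (tt (j + 1) D - tt j (D + 2)) := by
      apply mul_nonneg
      · positivity
      · linarith
    have hj : (0 : ℚ) ≤ j := by positivity
    linarith
  have e' : vv j (D + 2) * tt j (D + 2) = vv j (D + 1) * tt (j + 1) (D + 1) := e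
  have h3 : vv j (D + 1) * tt j (D + 2) ≤ vv j (D + 2) * tt j (D + 2) := by
    rw [e']
    exact mul_le_mul_of_nonneg_left h2 hv.le
  exact le_of_mul_le_mul_right h3 hp2

/-- the main invariants on differences -/
lemma PJ (j : ℕ) : ∀ D : ℕ, 0 ≤ tt (j + 1) D - tt j (D + 2) ∧
    tt (j + 1) D - tt j (D + 2) ≤ vv j (D + 1) := by
  induction j with
  | zero =>
    intro D
    induction D with
    | zero =>
      have h := tt_rec0 0
      rw [tt_zero] at h
      rw [h, tt_zero]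
      have h2 := vv_lower 0 1
      push_cast at *
      simp only [zero_add] at *
      constructor <;> norm_num <;> linarith
    | succ D ih =>
      obtain ⟨ih1, ih2⟩ := ih
      have h := tt_rec 0 D
      have hs := star 0 D
      have hp := tt_pos (0 + 1) D
      have hm := vv_mono_of 0 D (by linarith)
      have hv := vv_pos 0 (D + 1)
      set Δ := tt (0 + 1) D - tt 0 (D + 2) with hΔ
      set p := (((0 : ℕ) : ℚ) + 2) * ((D : ℚ) + 1) / tt (0 + 1) D with hpdef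
      have hp0 : 0 ≤ p := by rw [hpdef]; positivity
      have e1 : tt (0 + 1) (D + 1) - tt 0 (D + 1 + 2) = 1 + p * Δ := by
        rw [h, tt_zero, tt_zero]
        push_cast
        ring
      have e2 : p * vv 0 (D + 1) = vv 0 (D + 1) - 8 := by
        have : p = 1 - 4 * (((0 : ℕ) : ℚ) + 2) / vv 0 (D + 1) := by linarith
        rw [this, sub_mul, one_mul, div_mul_cancel₀ _ hv.ne']
        push_cast
        ring
      rw [e1]
      constructor
      · have := mul_nonneg hp0 ih1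
        linarith
      · have := mul_le_mul_of_nonneg_left ih2 hp0
        have hm' : vv 0 (D + 1) ≤ vv 0 (D + 1 + 1) := hm
        linarith
  | succ j IH =>
    intro D
    induction D with
    | zero =>
      obtain ⟨q1, q2⟩ := IH 1
      have h := tt_rec0 (j + 1)
      have h' := tt_rec j 1
      have hs := star j 1
      have hv := vv_pos j (1 + 1)
      have hvl := vv_lower (j + 1) 1
      have hvl0 := vv_mono_of j 1 (by linarith)
      set Δ := tt (j + 1) 1 - tt j (1 + 2) with hΔ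
      set p := ((j : ℚ) + 2) * (((1 : ℕ) : ℚ) + 1) / tt (j + 1) 1 with hpdef
      have hpp := tt_pos (j + 1) 1
      have e1 : tt (j + 1 + 1) 0 - tt (j + 1) (0 + 2) = 1 + (1 - p) * Δ := by
        have h2 : tt (j + 1) (0 + 2) = tt j (1 + 2) + ((j : ℚ) + 2) + p * Δ := h'
        rw [h, h2]
        push_cast
        rw [hΔ]
        ring
      have e2 : (1 - p) * vv j (1 + 1) = 4 * ((j : ℚ) + 2) := by
        have : 1 - p = 4 * ((j : ℚ) + 2) / vv j (1 + 1) := by linarith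
        rw [this, div_mul_cancel₀ _ hv.ne']
      have hp0 : 0 ≤ 1 - p := by
        have : 1 - p = 4 * ((j : ℚ) + 2) / vv j (1 + 1) := by linarith
        rw [this]
        positivity
      rw [e1]
      constructor
      · have := mul_nonneg hp0 q1
        linarith
      · have := mul_le_mul_of_nonneg_left q2 hp0
        have hj : (0 : ℚ) ≤ j := by positivity
        push_cast at hvl
        have h5 : 4 * ((j : ℚ) + 1 + 2) ≤ vv (j + 1) (0 + 1) := by
          have h6 : ((j : ℚ) + 1 + 1) * (4 * ((j : ℚ) + 1 + 2)) ≤ ((j : ℚ) + 1 + 1) * vv (j + 1) (0 + 1) := by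
            refine le_trans ?_ hvl
            nlinarith
          exact le_of_mul_le_mul_left h6 (by positivity)
        linarith
    | succ D ih =>
      obtain ⟨ih1, ih2⟩ := ih
      obtain ⟨q1, q2⟩ := IH (D + 2)
      have h := tt_rec (j + 1) D
      have h' := tt_rec j (D + 2)
      have hs := star (j + 1) D
      have hs' := star j (D + 2)
      have hv := vv_pos (j + 1) (D + 1)
      have hv' := vv_pos j (D + 2 + 1)
      have hm := vv_mono_of (j + 1) D (by linarith)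
      set Δ := tt (j + 1 + 1) D - tt (j + 1) (D + 2) with hΔ
      set Δ' := tt (j + 1) (D + 2) - tt j (D + 2 + 2) with hΔ'
      set p := (((j + 1 : ℕ) : ℚ) + 2) * ((D : ℚ) + 1) / tt (j + 1 + 1) D with hpdef
      set p' := ((j : ℚ) + 2) * (((D + 2 : ℕ) : ℚ) + 1) / tt (j + 1) (D + 2) with hpdef'
      have hpp := tt_pos (j + 1 + 1) D
      have hpp' := tt_pos (j + 1) (D + 2)
      have hp0 : 0 ≤ p := by rw [hpdef]; positivity
      have e1 : tt (j + 1 + 1) (D + 1) - tt (j + 1) (D + 1 + 2) = 1 + (1 - p') * Δ' + p * Δ := by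
        have h2 : tt (j + 1) (D + 1 + 2) = tt j (D + 2 + 2) + ((j : ℚ) + 2) + p' * Δ' := h'
        rw [h, h2]
        push_cast
        have h3 : tt (j + 1) (D + 2) = Δ' + tt j (D + 2 + 2) := by rw [hΔ']; ring
        rw [h3]
        ring
      have e2 : (1 - p') * vv j (D + 2 + 1) = 4 * ((j : ℚ) + 2) := by
        have : 1 - p' = 4 * ((j : ℚ) + 2) / vv j (D + 2 + 1) := by linarith
        rw [this, div_mul_cancel₀ _ hv'.ne']
      have e3 : p * vv (j + 1) (D + 1) = vv (j + 1) (D + 1) - 4 * ((j : ℚ) + 3) := by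
        have : p = 1 - 4 * (((j + 1 : ℕ) : ℚ) + 2) / vv (j + 1) (D + 1) := by linarith
        rw [this, sub_mul, one_mul, div_mul_cancel₀ _ hv.ne']
        push_cast
        ring
      have hp0' : 0 ≤ 1 - p' := by
        have : 1 - p' = 4 * ((j : ℚ) + 2) / vv j (D + 2 + 1) := by linarith
        rw [this]
        positivity
      rw [e1]
      constructor
      · have a1 := mul_nonneg hp0' q1
        have a2 := mul_nonneg hp0 ih1
        linarith
      · have a1 := mul_le_mul_of_nonneg_left q2 hp0'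
        have a2 := mul_le_mul_of_nonneg_left ih2 hp0
        have hm' : vv (j + 1) (D + 1) ≤ vv (j + 1) (D + 1 + 1) := hm
        linarith

end R218.BE
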