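import Pool.Agent.R218.BE.Sums

open scoped BigOperators Nat
open Finset

namespace R218.BE

/-- Chebyshev's inequality for two weights in likelihood ratio order -/
lemma cheb (n : ℕ) (f u v : ℕ → ℚ) (hf : ∀ i j, i < j → j < n → f i ≤ f j)
    (huv : ∀ i j, i < j → j < n → u j * v i ≤ u i * v j) :
    (∑ i ∈ range n, f i * u i) * (∑ i ∈ range n, v i)
      ≤ (∑ i ∈ range n, f i * v i) * (∑ i ∈ range n, u i) := by
  have h : 0 ≤ ∑ i ∈ range n, ∑ j ∈ range n, (f j - f i) * (u i * v j - u j * v i) := by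
    apply sum_nonneg
    intro i hi
    apply sum_nonneg
    intro j hj
    rw [mem_range] at hi hj
    rcases Nat.lt_trichotomy i j with h | h | h
    · exact mul_nonneg (sub_nonneg.2 (hf i j h hj)) (sub_nonneg.2 (huv i j h hj))
    · subst h; simp
    · have h1 := hf j i h hi
      have h2 := huv j i h hi
      nlinarith
  have e : ∑ i ∈ range n, ∑ j ∈ range n, (f j - f i) * (u i * v j - u j * v i)
      = 2 * ((∑ i ∈ range n, f i * v i) * (∑ i ∈ range n, u i)
        - (∑ i ∈ range n, f i * u i) * (∑ i ∈ range n, v i)) := by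
    have h1 : ∑ i ∈ range n, ∑ j ∈ range n, (f j - f i) * (u i * v j - u j * v i)
        = ∑ i ∈ range n, ∑ j ∈ range n, (u i * (f j * v j))
          - ∑ i ∈ range n, ∑ j ∈ range n, (v i * (f j * u j))
          - ∑ i ∈ range n, ∑ j ∈ range n, (f i * u i * v j)
          + ∑ i ∈ range n, ∑ j ∈ range n, (f i * v i * u j) := by
      rw [← sum_sub_distrib, ← sum_sub_distrib, ← sum_add_distrib]
      apply sum_congr rfl
      intro i _
      rw [← sum_sub_distrib, ← sum_sub_distrib, ← sum_add_distrib]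
      apply sum_congr rfl
      intro j _
      ring
    rw [h1]
    simp only [← mul_sum, ← sum_mul]
    ring
  rw [e] at h
  linarith

/-- the ratio `w k (l+1) i / w k l i` -/
def ta (k l i : ℕ) : ℚ := tt i ((k - i) + (l - i)) / ((l : ℚ) + 1 - i)

lemma ta_pos {k l i : ℕ} (h2 : i ≤ l) : 0 < ta k l i := by
  unfold ta
  have : (i : ℚ) ≤ l := by exact_mod_cast h2
  exact div_pos (tt_pos _ _) (by linarith)

lemma w_ta {k l i : ℕ} (h1 : i ≤ k) (h2 : i ≤ l) : w k (l + 1) i = w k l i * ta k l i := by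
  obtain ⟨r, rfl⟩ := Nat.exists_eq_add_of_le h1
  obtain ⟨s, rfl⟩ := Nat.exists_eq_add_of_le h2
  have h := w_succ_right r s i
  unfold ta
  have c2 : (((i + s : ℕ) : ℚ) + 1 - i) = s + 1 := by push_cast; ring
  have e1 : i + r - i = r := by omega
  have e2 : i + s - i = s := by omega
  rw [c2, e1, e2]
  have : (0 : ℚ) < (s : ℚ) + 1 := by positivity
  field_simp
  exact h

lemma ta_step {k l i : ℕ} (h1 : i + 1 ≤ k) (h2 : i + 1 ≤ l) : ta k l i ≤ ta k l (i + 1) := by
  obtain ⟨r, rfl⟩ := Nat.exists_eq_add_of_le h1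
  obtain ⟨s, rfl⟩ := Nat.exists_eq_add_of_le h2
  unfold ta
  have e1 : i + 1 + r - i + (i + 1 + s - i) = r + s + 2 := by omega
  have e2 : i + 1 + r - (i + 1) + (i + 1 + s - (i + 1)) = r + s := by omega
  rw [e1, e2]
  have h := (PJ i (r + s)).1
  have hp := tt_pos i (r + s + 2)
  have c1 : (((i + 1 + s : ℕ) : ℚ) + 1 - i) = s + 2 := by push_cast; ring
  have c2 : (((i + 1 + s : ℕ) : ℚ) + 1 - ((i + 1 : ℕ) : ℚ)) = s + 1 := by push_cast; ring
  rw [c1, c2]
  have hs : (0 : ℚ) < (s : ℚ) + 1 := by positivity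
  calc tt i (r + s + 2) / ((s : ℚ) + 2) ≤ tt i (r + s + 2) / ((s : ℚ) + 1) := by
        apply div_le_div_of_nonneg_left hp.le hs
        linarith
    _ ≤ tt (i + 1) (r + s) / ((s : ℚ) + 1) := by
        apply div_le_div_of_nonneg_right _ hs.le
        linarith

lemma mono_of_step (k l : ℕ) (g : ℕ → ℚ) (hg : ∀ i, i + 1 ≤ k → i + 1 ≤ l → g i ≤ g (i + 1)) :
    ∀ i j, i ≤ j → j ≤ k → j ≤ l → g i ≤ g j := by
  intro i j hij
  induction j, hij using Nat.le_induction with
  | base => intro _ _; exact le_refl _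
  | succ j hj ih =>
    intro h1 h2
    exact (ih (by omega) (by omega)).trans (hg j h1 h2)

/-- (B) -/
lemma ineqB (k l : ℕ) : c k (l + 1) * b k l ≤ c k l * b k (l + 1) := by
  have h := cheb (k + 1) (fun i => -((k : ℚ) - i)) (fun i => w k l i) (fun i => w k (l + 1) i)
    (by
      intro i j hij _
      have : (i : ℚ) ≤ j := by exact_mod_cast hij.le
      linarith)
    (by
      intro i j hij hj
      by_cases hl : j ≤ l
      · rw [w_ta (by omega : i ≤ k) (by omega : i ≤ l), w_ta (by omega : j ≤ k) hl]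
        have h1 := mono_of_step k l (ta k l) (fun i a1 a2 => ta_step a1 a2) i j hij.le (by omega) hl
        have h2 := w_nonneg k l i
        have h3 := w_nonneg k l j
        have := mul_le_mul_of_nonneg_left h1 (mul_nonneg h2 h3)
        nlinarith
      · rw [w_zero_right (k := k) (by omega : l < j), zero_mul]
        exact mul_nonneg (w_nonneg _ _ _) (w_nonneg _ _ _))
  have e1 : ∑ i ∈ range (k + 1), -((k : ℚ) - i) * w k l i = - c k l := by
    unfold c
    rw [← sum_neg_distrib]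
    apply sum_congr rfl
    intro i _
    ring
  have e2 : ∑ i ∈ range (k + 1), -((k : ℚ) - i) * w k (l + 1) i = - c k (l + 1) := by
    unfold c
    rw [← sum_neg_distrib]
    apply sum_congr rfl
    intro i _
    ring
  rw [e1, e2] at h
  have e3 : ∑ i ∈ range (k + 1), w k (l + 1) i = b k (l + 1) := rfl
  have e4 : ∑ i ∈ range (k + 1), w k l i = b k l := rfl
  rw [e3, e4] at h
  linarith

/-- the shifted weight -/
def us (k l : ℕ) : ℕ → ℚ
  | 0 => 0
  | i + 1 => w k l i

/-- the thinned weight -/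
def pt (k l : ℕ) : ℕ → ℚ
  | 0 => w k (l + 1) 0
  | i + 1 => ((i : ℚ) + 2) * w k (l + 1) (i + 1) + ((l : ℚ) + 1 - i) * w k (l + 1) i

/-- the ratio of the two -/
def ph (k l i : ℕ) : ℚ :=
  tt i ((k - i) + (l - i)) + ((k : ℚ) - i) * vv i ((k - i) + (l - i) - 1)

lemma pt_ph {k l i : ℕ} (h1 : i ≤ k) (h2 : i ≤ l) : pt k l (i + 1) = w k l i * ph k l i := by
  have h := w_ta h1 h2
  have hl : (0 : ℚ) < (l : ℚ) + 1 - i := by
    have : (i : ℚ) ≤ l := by exact_mod_cast h2
    linarith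
  have e1 : ((l : ℚ) + 1 - i) * w k (l + 1) i = w k l i * tt i ((k - i) + (l - i)) := by
    rw [h]
    unfold ta
    field_simp
  have e2 : ((i : ℚ) + 2) * w k (l + 1) (i + 1)
      = w k l i * (((k : ℚ) - i) * vv i ((k - i) + (l - i) - 1)) := by
    obtain ⟨r, rfl⟩ := Nat.exists_eq_add_of_le h1
    obtain ⟨s, rfl⟩ := Nat.exists_eq_add_of_le h2
    rcases r with _ | r
    · rw [w_zero_left (by omega)]
      push_cast
      ring
    · have a1 : i + (r + 1) - i + (i + s - i) - 1 = r + s := by omega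
      rw [a1]
      have a2 := w_eq r s (i + 1)
      have a3 : i + 1 + r = i + (r + 1) := by ring
      have a4 : i + 1 + s = i + s + 1 := by ring
      rw [a3, a4] at a2
      rw [a2, w_eq]
      have a5 : r + 1 + s = r + s + 1 := by ring
      rw [a5]
      unfold vv
      have b1 := Hq_pos i (r + s + 1)
      have b2 := fq_pos r
      have b3 := fq_pos s
      rw [Nat.factorial_succ]
      push_cast
      field_simp
      ring
  unfold ph
  show ((i : ℚ) + 2) * w k (l + 1) (i + 1) + ((l : ℚ) + 1 - i) * w k (l + 1) i = _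
  rw [e1, e2]
  ring

lemma ph_step {k l i : ℕ} (h1 : i + 1 ≤ k) (h2 : i + 1 ≤ l) : ph k l (i + 1) ≤ ph k l i := by
  obtain ⟨r, rfl⟩ := Nat.exists_eq_add_of_le h1
  obtain ⟨s, rfl⟩ := Nat.exists_eq_add_of_le h2
  unfold ph
  have e1 : i + 1 + r - i + (i + 1 + s - i) = r + s + 2 := by omega
  have e2 : i + 1 + r - (i + 1) + (i + 1 + s - (i + 1)) = r + s := by omega
  rw [e1, e2]
  have e3 : r + s + 2 - 1 = r + s + 1 := by omega
  rw [e3]
  have h := (PJ i (r + s)).2
  have c1 : (((i + 1 + r : ℕ) : ℚ) - i) = r + 1 := by push_cast; ring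
  have c2 : (((i + 1 + r : ℕ) : ℚ) - ((i + 1 : ℕ) : ℚ)) = r := by push_cast; ring
  rw [c1, c2]
  have hr : (r : ℚ) * vv (i + 1) (r + s - 1) ≤ (r : ℚ) * vv i (r + s + 1) := by
    rcases r with _ | r
    · simp
    · have e4 : r + 1 + s - 1 = r + s := by omega
      have e5 : r + 1 + s + 1 = r + s + 2 := by omega
      rw [e4, e5]
      exact mul_le_mul_of_nonneg_left (Vm i (r + s)) (by positivity)
  linarith

lemma pt_zero {k l i : ℕ} (h : l < i) : pt k l (i + 1) = 0 := by
  show ((i : ℚ) + 2) * w k (l + 1) (i + 1) + ((l : ℚ) + 1 - i) * w k (l + 1) i = 0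
  rw [w_zero_right (k := k) (by omega : l + 1 < i + 1)]
  by_cases hi : i = l + 1
  · subst hi
    push_cast
    ring
  · rw [w_zero_right (k := k) (by omega : l + 1 < i)]
    ring

lemma pt_nonneg {k l i : ℕ} (hi : i ≤ l) : 0 ≤ pt k l (i + 1) := by
  show 0 ≤ ((i : ℚ) + 2) * w k (l + 1) (i + 1) + ((l : ℚ) + 1 - i) * w k (l + 1) i
  have h1 := w_nonneg k (l + 1) (i + 1)
  have h2 := w_nonneg k (l + 1) i
  have h3 : (i : ℚ) ≤ l := by exact_mod_cast hi
  have h4 : (0 : ℚ) ≤ i := by positivity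
  have h5 := mul_nonneg (by linarith : (0 : ℚ) ≤ (i : ℚ) + 2) h1
  have h6 := mul_nonneg (by linarith : (0 : ℚ) ≤ (l : ℚ) + 1 - i) h2
  linarith

/-- (A') -/
lemma ineqA (k l : ℕ) : ((l : ℚ) + 2) * cc k l * b k (l + 1) ≤ ((l : ℚ) + 1) * cc k (l + 1) * b k l := by
  have h := cheb (k + 2) (fun i => -((l : ℚ) + 1 - i)) (pt k l) (us k l)
    (by
      intro i j hij _
      have : (i : ℚ) ≤ j := by exact_mod_cast hij.le
      linarith)
    (by
      intro i j hij hj
      rcases j with _ | j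
      · omega
      rcases i with _ | i
      · show pt k l (j + 1) * 0 ≤ w k (l + 1) 0 * w k l j
        rw [mul_zero]
        exact mul_nonneg (w_nonneg _ _ _) (w_nonneg _ _ _)
      · show pt k l (j + 1) * w k l i ≤ pt k l (i + 1) * w k l j
        by_cases hl : j ≤ l
        · rw [pt_ph (by omega : i ≤ k) (by omega : i ≤ l), pt_ph (by omega : j ≤ k) hl]
          have h1 := mono_of_step k l (fun i => - ph k l i)
            (fun i a1 a2 => neg_le_neg (ph_step a1 a2)) i j (by omega) (by omega) hl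
          have h2 := w_nonneg k l i
          have h3 := w_nonneg k l j
          have := mul_le_mul_of_nonneg_left h1 (mul_nonneg h2 h3)
          nlinarith
        · rw [pt_zero (by omega : l < j), w_zero_right (k := k) (by omega : l < j)]
          simp)
  have e1 : ∑ i ∈ range (k + 2), us k l i = b k l := by
    rw [sum_range_succ']
    show (∑ i ∈ range (k + 1), w k l i) + 0 = b k l
    rw [add_zero]
    rfl
  have e2 : ∑ i ∈ range (k + 2), -((l : ℚ) + 1 - i) * us k l i = - cc k l := by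
    rw [sum_range_succ']
    show (∑ i ∈ range (k + 1), -((l : ℚ) + 1 - ((i + 1 : ℕ) : ℚ)) * w k l i)
      + -((l : ℚ) + 1 - ((0 : ℕ) : ℚ)) * 0 = - cc k l
    rw [mul_zero, add_zero]
    unfold cc
    rw [← sum_neg_distrib]
    apply sum_congr rfl
    intro i _
    push_cast
    ring
  have hz : w k (l + 1) (k + 1) = 0 := w_zero_left (by omega)
  have e3 : ∑ i ∈ range (k + 2), pt k l i = ((l : ℚ) + 2) * b k (l + 1) := by
    rw [sum_range_succ']
    show (∑ i ∈ range (k + 1), (((i : ℚ) + 2) * w k (l + 1) (i + 1)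
      + ((l : ℚ) + 1 - i) * w k (l + 1) i)) + w k (l + 1) 0 = _
    rw [sum_add_distrib]
    have s1 : (∑ i ∈ range (k + 1), ((i : ℚ) + 2) * w k (l + 1) (i + 1)) + w k (l + 1) 0
        = ∑ i ∈ range (k + 1), ((i : ℚ) + 1) * w k (l + 1) i := by
      have t1 := sum_range_succ' (fun i : ℕ => ((i : ℚ) + 1) * w k (l + 1) i) (k + 1)
      have t2 := sum_range_succ (fun i : ℕ => ((i : ℚ) + 1) * w k (l + 1) i) (k + 1)
      simp only [hz] at t2
      rw [t2] at t1
      rw [mul_zero, add_zero] at t1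
      rw [t1]
      push_cast
      have : ∀ i ∈ range (k + 1), ((i : ℚ) + 2) * w k (l + 1) (i + 1)
          = ((i : ℚ) + 1 + 1) * w k (l + 1) (i + 1) := by
        intro i _; ring
      rw [sum_congr rfl this]
      ring
    have s2 : ((l : ℚ) + 2) * b k (l + 1) = ∑ i ∈ range (k + 1), ((i : ℚ) + 1) * w k (l + 1) i
        + ∑ i ∈ range (k + 1), ((l : ℚ) + 1 - i) * w k (l + 1) i := by
      unfold b
      rw [mul_sum, ← sum_add_distrib]
      apply sum_congr rfl
      intro i _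
      ring
    rw [s2, ← s1]
    ring
  have e4 : ∑ i ∈ range (k + 2), -((l : ℚ) + 1 - i) * pt k l i = - (((l : ℚ) + 1) * cc k (l + 1)) := by
    rw [sum_range_succ']
    show (∑ i ∈ range (k + 1), -((l : ℚ) + 1 - ((i + 1 : ℕ) : ℚ)) * (((i : ℚ) + 2) * w k (l + 1) (i + 1)
      + ((l : ℚ) + 1 - i) * w k (l + 1) i)) + -((l : ℚ) + 1 - ((0 : ℕ) : ℚ)) * w k (l + 1) 0 = _
    have s0 : ∀ i ∈ range (k + 1), -((l : ℚ) + 1 - ((i + 1 : ℕ) : ℚ)) * (((i : ℚ) + 2) * w k (l + 1) (i + 1)
        + ((l : ℚ) + 1 - i) * w k (l + 1) i)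
        = (-((l : ℚ) + 1 - ((i + 1 : ℕ) : ℚ)) * (((i + 1 : ℕ) : ℚ) + 1) * w k (l + 1) (i + 1))
          + (-((l : ℚ) - i) * ((l : ℚ) + 1 - i) * w k (l + 1) i) := by
      intro i _
      push_cast
      ring
    rw [sum_congr rfl s0, sum_add_distrib]
    have s1 : (∑ i ∈ range (k + 1), (-((l : ℚ) + 1 - ((i + 1 : ℕ) : ℚ)) * (((i + 1 : ℕ) : ℚ) + 1) * w k (l + 1) (i + 1)))
        + -((l : ℚ) + 1 - ((0 : ℕ) : ℚ)) * (((0 : ℕ) : ℚ) + 1) * w k (l + 1) 0
        = ∑ i ∈ range (k + 1), (-((l : ℚ) + 1 - (i : ℚ)) * ((i : ℚ) + 1) * w k (l + 1) i) := by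
      have t1 := sum_range_succ' (fun i : ℕ => -((l : ℚ) + 1 - (i : ℚ)) * ((i : ℚ) + 1) * w k (l + 1) i) (k + 1)
      have t2 := sum_range_succ (fun i : ℕ => -((l : ℚ) + 1 - (i : ℚ)) * ((i : ℚ) + 1) * w k (l + 1) i) (k + 1)
      simp only [hz] at t2
      rw [t2] at t1
      rw [mul_zero, add_zero] at t1
      exact t1.symm
    have s2 : - (((l : ℚ) + 1) * cc k (l + 1))
        = ∑ i ∈ range (k + 1), (-((l : ℚ) + 1 - (i : ℚ)) * ((i : ℚ) + 1) * w k (l + 1) i)
        + ∑ i ∈ range (k + 1), (-((l : ℚ) - i) * ((l : ℚ) + 1 - i) * w k (l + 1) i) := by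
      unfold cc
      rw [mul_sum, ← sum_neg_distrib, ← sum_add_distrib]
      apply sum_congr rfl
      intro i _
      push_cast
      ring
    rw [s2, ← s1]
    push_cast
    ring
  rw [e1, e2, e3, e4] at h
  linarith

lemma c_pos (k l : ℕ) : 0 < c (k + 1) l := by
  unfold c
  apply sum_pos'
  · intro i hi
    rw [mem_range] at hi
    apply mul_nonneg _ (w_nonneg _ _ _)
    have : (i : ℚ) ≤ ((k + 1 : ℕ) : ℚ) := by exact_mod_cast (by omega : i ≤ k + 1)
    linarith
  · refine ⟨0, by simp, ?_⟩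
    apply mul_pos
    · have : (0 : ℚ) ≤ k := by positivity
      push_cast
      linarith
    · exact w_pos (by omega) (by omega)

lemma b_pos (k l : ℕ) : 0 < b k l := by
  unfold b
  apply sum_pos'
  · intro i _
    exact w_nonneg _ _ _
  · exact ⟨0, by simp, w_pos (by omega) (by omega)⟩

/-- Column log-concavity of the sums. -/
theorem b_logconcave (k l : ℕ) : b (k + 1) l * b (k + 1) (l + 2) ≤ b (k + 1) (l + 1) ^ 2 := by
  have r0 := b_rec k l
  have r1 := b_rec k (l + 1)
  have hB := ineqB (k + 1) l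
  have hA := ineqA k (l + 1)
  rw [cc_eq] at hA
  have hA' : ((l : ℚ) + 3) * c (k + 1) l * b k (l + 2) ≤ ((l : ℚ) + 2) * c (k + 1) (l + 1) * b k (l + 1) := by
    have e := cc_eq k (l + 1)
    have e' : cc k (l + 1 + 1) = c (k + 1) (l + 1) := e
    rw [e'] at hA
    push_cast at hA
    have e3 : b k (l + 1 + 1) = b k (l + 2) := rfl
    rw [e3] at hA
    linarith
  have hc := c_pos k l
  have hb0 := b_pos (k + 1) l
  have hb1 := b_pos (k + 1) (l + 1)
  have hq0 := b_pos k (l + 1)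
  have hq1 := b_pos k (l + 2)
  have r1' : b (k + 1) (l + 2) = ((k : ℚ) + 2) * b (k + 1) (l + 1) + ((l : ℚ) + 3) * b k (l + 2)
      + 2 * c (k + 1) (l + 1) := by
    have : b (k + 1) (l + 2) = b (k + 1) (l + 1 + 1) := rfl
    rw [this, r1]
    push_cast
    ring
  -- the key comparison
  have key : ((l : ℚ) + 3) * b k (l + 2) * b (k + 1) l ≤ ((l : ℚ) + 2) * b k (l + 1) * b (k + 1) (l + 1) := by
    have h1 : ((l : ℚ) + 3) * b k (l + 2) * b (k + 1) l * c (k + 1) l
        ≤ ((l : ℚ) + 2) * b k (l + 1) * b (k + 1) (l + 1) * c (k + 1) l := by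
      have h2 := mul_le_mul_of_nonneg_right hA' hb0.le
      have h3 : ((l : ℚ) + 2) * b k (l + 1) * (c (k + 1) (l + 1) * b (k + 1) l)
          ≤ ((l : ℚ) + 2) * b k (l + 1) * (c (k + 1) l * b (k + 1) (l + 1)) :=
        mul_le_mul_of_nonneg_left hB (by positivity)
      linarith
    exact le_of_mul_le_mul_right h1 hc
  rw [r1', sq]
  have e : b (k + 1) (l + 1) * b (k + 1) (l + 1) = b (k + 1) (l + 1) * (((k : ℚ) + 2) * b (k + 1) l
      + ((l : ℚ) + 2) * b k (l + 1) + 2 * c (k + 1) l) := by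
    rw [← r0]
  rw [e]
  nlinarith

end R218.BE
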