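import Pool.Agent.R218.BE.Defs

open scoped BigOperators Nat

namespace R218.BE

/-- Adding a new smallest vertex in a free slot. -/
def SA : Prop := ∀ (m : ℕ) (G : ℕ → ℕ → ℕ → ℕ),
  ∑ T : DecTree (m + 2), G T.nR T.nL T.nD =
  ∑ T : DecTree (m + 1),
    ((T.nD + 1) * (G (T.nR + 1) T.nL T.nD + G T.nR (T.nL + 1) T.nD)
      + T.nL * G T.nR (T.nL - 1) (T.nD + 1) + T.nR * G (T.nR - 1) T.nL (T.nD + 1))

/-- Basic counts. -/
def SF : Prop := ∀ (n : ℕ) (T : DecTree n),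
  T.rightEdges = T.nR + T.nD ∧ T.nR + T.nL + 2 * T.nD + 1 = n

/-- The formula for the Boolean–Eulerian numbers, from the two facts above. -/
def SB : Prop := SA → SF → ∀ k l : ℕ,
  (BoEl (k + l + 1) (k + 1) : ℚ) = ∑ t ∈ Finset.range (k + 1),
    if t ≤ l then (H t ((k - t) + (l - t)) : ℚ) / (((k - t)! : ℚ) * ((l - t)! : ℚ)) else 0

end R218.BE
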