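import Pool.Agent.R218.BE.Vm

open scoped BigOperators Nat
open Finset

namespace R218.BE

/-- the summand -/
def w (k l i : ℕ) : ℚ :=
  if i ≤ k ∧ i ≤ l then (H i ((k - i) + (l - i)) : ℚ) / (((k - i)! : ℚ) * ((l - i)! : ℚ)) else 0

lemma w_eq (r s i : ℕ) : w (i + r) (i + s) i = (H i (r + s) : ℚ) / ((r ! : ℚ) * (s ! : ℚ)) := by
  unfold w
  rw [if_pos ⟨by omega, by omega⟩]
  simp

lemma w_zero_left {k l i : ℕ} (h : k < i) : w k l i = 0 := by
  unfold w; rw [if_neg]; omega

lemma w_zero_right {k l i : ℕ} (h : l < i) : w k l i = 0 := by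
  unfold w; rw [if_neg]; omega

lemma fq_pos (n : ℕ) : (0 : ℚ) < (n ! : ℚ) := by exact_mod_cast Nat.factorial_pos n

lemma w_pos {k l i : ℕ} (h1 : i ≤ k) (h2 : i ≤ l) : 0 < w k l i := by
  unfold w
  rw [if_pos ⟨h1, h2⟩]
  have := Hq_pos i ((k - i) + (l - i))
  have := fq_pos (k - i)
  have := fq_pos (l - i)
  positivity

lemma w_nonneg (k l i : ℕ) : 0 ≤ w k l i := by
  by_cases h : i ≤ k ∧ i ≤ l
  · exact (w_pos h.1 h.2).le
  · unfold w; rw [if_neg h]

/-- `w` after raising `l` -/
lemma w_succ_right (r s i : ℕ) :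
    w (i + r) (i + s + 1) i * ((s : ℚ) + 1) = w (i + r) (i + s) i * tt i (r + s) := by
  have e1 : i + s + 1 = i + (s + 1) := by ring
  rw [e1, w_eq, w_eq]
  unfold tt
  have h1 := Hq_pos i (r + s)
  have h2 := fq_pos r
  have h3 := fq_pos s
  have e2 : r + (s + 1) = r + s + 1 := by ring
  rw [e2, Nat.factorial_succ]
  push_cast
  field_simp

lemma w_cross (r s i : ℕ) : ((s : ℚ) + 1) * w (i + r) (i + s + 1) i
    = ((r : ℚ) + 1) * w (i + r + 1) (i + s) i := by
  have e1 : i + s + 1 = i + (s + 1) := by ring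
  have e3 : i + r + 1 = i + (r + 1) := by ring
  rw [e1, w_eq, e3, w_eq]
  have h1 := Hq_pos i (r + s)
  have h2 := fq_pos r
  have h3 := fq_pos s
  have e2 : r + (s + 1) = r + s + 1 := by ring
  have e4 : r + 1 + s = r + s + 1 := by ring
  rw [e2, e4, Nat.factorial_succ, Nat.factorial_succ]
  push_cast
  field_simp

lemma w_cross' (k l i : ℕ) (hi : i ≤ k) : ((l : ℚ) + 1 - i) * w k (l + 1) i
    = ((k : ℚ) + 1 - i) * w (k + 1) l i := by
  rcases Nat.lt_trichotomy i (l + 1) with h | h | h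
  · obtain ⟨r, rfl⟩ := Nat.exists_eq_add_of_le hi
    obtain ⟨s, rfl⟩ := Nat.exists_eq_add_of_le (Nat.lt_succ_iff.mp h)
    have := w_cross r s i
    push_cast
    have e1 : ((i : ℚ) + s + 1 - i) = s + 1 := by ring
    have e2 : ((i : ℚ) + r + 1 - i) = r + 1 := by ring
    rw [e1, e2]
    exact this
  · subst h
    rw [w_zero_right (k := k + 1) (l := l) (i := l + 1) (by omega)]
    push_cast
    ring
  · rw [w_zero_right (k := k + 1) (l := l) (by omega), w_zero_right (k := k) (l := l + 1) (by omega)]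
    ring

lemma w_rec0 (k l : ℕ) : w (k + 1) (l + 1) 0 = w k (l + 1) 0 + w (k + 1) l 0 := by
  unfold w
  simp only [Nat.zero_le, and_self, if_true, Nat.sub_zero, H_zero]
  have h1 := fq_pos k
  have h2 := fq_pos l
  have e1 : k + 1 + (l + 1) = (k + l + 1) + 1 := by ring
  have e2 : k + (l + 1) = k + l + 1 := by ring
  have e3 : k + 1 + l = k + l + 1 := by ring
  rw [e1, e2, e3, Nat.factorial_succ (k + l + 1), Nat.factorial_succ k, Nat.factorial_succ l]
  push_cast
  field_simp
  ring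

lemma w_rec (k l i : ℕ) : w (k + 1) (l + 1) (i + 1)
    = ((i : ℚ) + 2) * (w k (l + 1) (i + 1) + w (k + 1) l (i + 1))
      + 2 * ((k : ℚ) + 1 - i) * w (k + 1) l i + 2 * ((l : ℚ) + 1 - i) * w k (l + 1) i := by
  by_cases h : i ≤ k ∧ i ≤ l
  · obtain ⟨h1, h2⟩ := h
    obtain ⟨r, rfl⟩ := Nat.exists_eq_add_of_le h1
    obtain ⟨s, rfl⟩ := Nat.exists_eq_add_of_le h2
    have f1 := fq_pos r
    have f2 := fq_pos s
    have hL : w (i + r + 1) (i + s + 1) (i + 1) = (H (i + 1) (r + s) : ℚ) / ((r ! : ℚ) * (s ! : ℚ)) := by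
      have := w_eq r s (i + 1)
      have e1 : i + 1 + r = i + r + 1 := by ring
      have e2 : i + 1 + s = i + s + 1 := by ring
      rw [e1, e2] at this
      exact this
    have hR1 : w (i + r) (i + s + 1) (i + 1)
        = (r : ℚ) * (H (i + 1) (r + s - 1) : ℚ) / ((r ! : ℚ) * (s ! : ℚ)) := by
      rcases r with _ | r
      · rw [w_zero_left (by omega)]
        simp
      · have := w_eq r s (i + 1)
        have e1 : i + 1 + r = i + (r + 1) := by ring
        have e2 : i + 1 + s = i + s + 1 := by ring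
        rw [e1, e2] at this
        rw [this]
        have e3 : r + 1 + s - 1 = r + s := by omega
        rw [e3, Nat.factorial_succ]
        have := fq_pos r
        push_cast
        field_simp
    have hR2 : w (i + r + 1) (i + s) (i + 1)
        = (s : ℚ) * (H (i + 1) (r + s - 1) : ℚ) / ((r ! : ℚ) * (s ! : ℚ)) := by
      rcases s with _ | s
      · rw [w_zero_right (by omega)]
        simp
      · have := w_eq r s (i + 1)
        have e1 : i + 1 + r = i + r + 1 := by ring
        have e2 : i + 1 + s = i + (s + 1) := by ring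
        rw [e1, e2] at this
        rw [this]
        have e3 : r + (s + 1) - 1 = r + s := by omega
        rw [e3, Nat.factorial_succ]
        have := fq_pos s
        push_cast
        field_simp
    have hR3 : w (i + r + 1) (i + s) i * ((r : ℚ) + 1)
        = (H i (r + s + 1) : ℚ) / ((r ! : ℚ) * (s ! : ℚ)) := by
      have e3 : i + r + 1 = i + (r + 1) := by ring
      have e4 : r + 1 + s = r + s + 1 := by ring
      rw [e3, w_eq, e4, Nat.factorial_succ]
      push_cast
      field_simp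
    have hR4 : w (i + r) (i + s + 1) i * ((s : ℚ) + 1)
        = (H i (r + s + 1) : ℚ) / ((r ! : ℚ) * (s ! : ℚ)) := by
      have e3 : i + s + 1 = i + (s + 1) := by ring
      have e4 : r + (s + 1) = r + s + 1 := by ring
      rw [e3, w_eq, e4, Nat.factorial_succ]
      push_cast
      field_simp
    have hH : (H (i + 1) (r + s) : ℚ) = ((i : ℚ) + 2) * ((r : ℚ) + s) * H (i + 1) (r + s - 1)
        + 4 * H i (r + s + 1) := by
      rcases hrs : r + s with _ | D
      · have hr : r = 0 := by omega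
        have hs : s = 0 := by omega
        subst hr hs
        rw [H_s0]
        simp
      · have hc : (r : ℚ) + s = (D : ℚ) + 1 := by exact_mod_cast hrs
        rw [hc, H_ss]
        simp only [Nat.add_sub_cancel]
    have c1 : (((i + r : ℕ) : ℚ) + 1 - i) = r + 1 := by push_cast; ring
    have c2 : (((i + s : ℕ) : ℚ) + 1 - i) = s + 1 := by push_cast; ring
    rw [c1, c2]
    have d1 : 2 * ((r : ℚ) + 1) * w (i + r + 1) (i + s) i
        = 2 * (w (i + r + 1) (i + s) i * ((r : ℚ) + 1)) := by ring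
    have d2 : 2 * ((s : ℚ) + 1) * w (i + r) (i + s + 1) i
        = 2 * (w (i + r) (i + s + 1) i * ((s : ℚ) + 1)) := by ring
    rw [d1, d2, hR3, hR4, hR1, hR2, hL, hH]
    field_simp
    ring
  · have z1 : w (k + 1) (l + 1) (i + 1) = 0 := by
      unfold w; rw [if_neg]; omega
    have z2 : w k (l + 1) (i + 1) = 0 := by
      unfold w; rw [if_neg]; omega
    have z3 : w (k + 1) l (i + 1) = 0 := by
      unfold w; rw [if_neg]; omega
    have z4 : ((k : ℚ) + 1 - i) * w (k + 1) l i = 0 := by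
      by_cases hk : i = k + 1
      · subst hk; push_cast; ring
      · have : w (k + 1) l i = 0 := by
          unfold w; rw [if_neg]; omega
        rw [this]; ring
    have z5 : ((l : ℚ) + 1 - i) * w k (l + 1) i = 0 := by
      by_cases hk : i = l + 1
      · subst hk; push_cast; ring
      · have : w k (l + 1) i = 0 := by
          unfold w; rw [if_neg]; omega
        rw [this]; ring
    rw [z1, z2, z3]
    linear_combination (-2 : ℚ) * z4 - 2 * z5

/-- the sums -/
def b (k l : ℕ) : ℚ := ∑ i ∈ range (k + 1), w k l i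
def c (k l : ℕ) : ℚ := ∑ i ∈ range (k + 1), ((k : ℚ) - i) * w k l i
def cc (k l : ℕ) : ℚ := ∑ i ∈ range (k + 1), ((l : ℚ) - i) * w k l i

lemma cc_eq (k l : ℕ) : cc k (l + 1) = c (k + 1) l := by
  unfold cc c
  rw [sum_range_succ (n := k + 1)]
  have hz : (((k + 1 : ℕ) : ℚ) - ((k + 1 : ℕ) : ℚ)) * w (k + 1) l (k + 1) = 0 := by ring
  rw [hz, add_zero]
  apply sum_congr rfl
  intro i hi
  rw [mem_range] at hi
  have := w_cross' k l i (by omega)
  push_cast
  exact this

lemma b_rec (k l : ℕ) : b (k + 1) (l + 1)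
    = ((k : ℚ) + 2) * b (k + 1) l + ((l : ℚ) + 2) * b k (l + 1) + 2 * c (k + 1) l := by
  have e1 : b (k + 1) (l + 1) = ∑ i ∈ range (k + 2), ((i : ℚ) + 1) * w k (l + 1) i
      + ∑ i ∈ range (k + 2), ((i : ℚ) + 1) * w (k + 1) l i
      + ∑ i ∈ range (k + 1), 2 * ((k : ℚ) + 1 - i) * w (k + 1) l i
      + ∑ i ∈ range (k + 1), 2 * ((l : ℚ) + 1 - i) * w k (l + 1) i := by
    unfold b
    rw [sum_range_succ' (n := k + 1)]
    rw [sum_range_succ' (n := k + 1) (f := fun i => ((i : ℚ) + 1) * w k (l + 1) i)]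
    rw [sum_range_succ' (n := k + 1) (f := fun i => ((i : ℚ) + 1) * w (k + 1) l i)]
    rw [w_rec0]
    have : ∑ i ∈ range (k + 1), w (k + 1) (l + 1) (i + 1) =
        ∑ i ∈ range (k + 1), (((i + 1 : ℕ) : ℚ) + 1) * w k (l + 1) (i + 1)
        + ∑ i ∈ range (k + 1), (((i + 1 : ℕ) : ℚ) + 1) * w (k + 1) l (i + 1)
        + ∑ i ∈ range (k + 1), 2 * ((k : ℚ) + 1 - i) * w (k + 1) l i
        + ∑ i ∈ range (k + 1), 2 * ((l : ℚ) + 1 - i) * w k (l + 1) i := by
      rw [← sum_add_distrib, ← sum_add_distrib, ← sum_add_distrib]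
      apply sum_congr rfl
      intro i _
      rw [w_rec]
      push_cast
      ring
    rw [this]
    push_cast
    ring
  have e2 : ∑ i ∈ range (k + 2), ((i : ℚ) + 1) * w k (l + 1) i
      = ∑ i ∈ range (k + 1), ((i : ℚ) + 1) * w k (l + 1) i := by
    rw [sum_range_succ, w_zero_left (by omega)]
    ring
  have e3 : ∑ i ∈ range (k + 1), 2 * ((k : ℚ) + 1 - i) * w (k + 1) l i
      = ∑ i ∈ range (k + 2), 2 * ((k : ℚ) + 1 - i) * w (k + 1) l i := by
    rw [sum_range_succ (n := k + 1)]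
    push_cast
    ring
  have e4 : ((k : ℚ) + 2) * b (k + 1) l + c (k + 1) l
      = ∑ i ∈ range (k + 2), ((i : ℚ) + 1) * w (k + 1) l i
        + ∑ i ∈ range (k + 2), 2 * ((k : ℚ) + 1 - i) * w (k + 1) l i := by
    unfold b c
    rw [mul_sum, ← sum_add_distrib, ← sum_add_distrib]
    apply sum_congr rfl
    intro i _
    push_cast
    ring
  have e5 : ((l : ℚ) + 2) * b k (l + 1) + cc k (l + 1)
      = ∑ i ∈ range (k + 1), ((i : ℚ) + 1) * w k (l + 1) i
        + ∑ i ∈ range (k + 1), 2 * ((l : ℚ) + 1 - i) * w k (l + 1) i := by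
    unfold b cc
    rw [mul_sum, ← sum_add_distrib, ← sum_add_distrib]
    apply sum_congr rfl
    intro i _
    push_cast
    ring
  rw [cc_eq] at e5
  rw [e1, e2, e3]
  linarith

end R218.BE
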