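import Pool.Agent.R218.BE.Inv

open scoped BigOperators Nat

namespace R218.BE

/-- the rational inequality behind the monotonicity of `vv` -/
lemma rat_ineq (i d x : ℚ) (hi : 1 ≤ i) (hd : 1 ≤ d) (hx : 4 * (i + 1) * (i + d) ≤ i * x) :
    (i + 2) * (4 + (d - 1) * (x - 4 * (i + 1)) / ((i + 1) * d))
      ≤ (i + 1) * (4 + (d + 1) * (x - 4 * i) / (i * (d + 2))) := by
  have h0 : (0 : ℚ) < i := by linarith
  have h1 : (0 : ℚ) < d := by linarith
  have e : (i + 1) * (4 + (d + 1) * (x - 4 * i) / (i * (d + 2)))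
      - (i + 2) * (4 + (d - 1) * (x - 4 * (i + 1)) / ((i + 1) * d))
      = (4 * (d + 1 - i) * (i + 1) * d + (x - 4 * (i + 1)) * (d * (d + 1) + 2 * i * (i + 2)))
        / (i * (i + 1) * d * (d + 2)) := by
    field_simp
    ring
  have hn : 0 ≤ 4 * (d + 1 - i) * (i + 1) * d
      + (x - 4 * (i + 1)) * (d * (d + 1) + 2 * i * (i + 2)) := by
    have hy : 4 * (i + 1) * d ≤ i * (x - 4 * (i + 1)) := by linarith
    have hq : 0 ≤ d * (d + 1) + 2 * i * (i + 2) := by positivity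
    have h2 : 0 ≤ i * (4 * (d + 1 - i) * (i + 1) * d
      + (x - 4 * (i + 1)) * (d * (d + 1) + 2 * i * (i + 2))) := by
      have h3 := mul_le_mul_of_nonneg_right hy hq
      have h4 : 0 ≤ 4 * (i + 1) * d * (i * (d + 1 - i) + d * (d + 1) + 2 * i * (i + 2)) := by
        apply mul_nonneg (by positivity)
        nlinarith
      nlinarith
    exact nonneg_of_mul_nonneg_right h2 h0
  have : 0 ≤ (4 * (d + 1 - i) * (i + 1) * d + (x - 4 * (i + 1)) * (d * (d + 1) + 2 * i * (i + 2)))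
        / (i * (i + 1) * d * (d + 2)) := div_nonneg hn (by positivity)
  linarith

lemma lowA (j D : ℕ) (hw : ∀ j', j = j' + 1 → vv j (D + 2) ≤ vv j' (D + 4)) :
    (vv j (D + 2) - 4 * ((j : ℚ) + 1)) / (((j : ℚ) + 1) * ((D : ℚ) + 4))
      ≤ vv j (D + 2) / tt j (D + 3) := by
  have hx := vv_pos j (D + 2)
  rcases j with _ | j'
  · rw [tt_zero]
    push_cast
    have h1 : (0 : ℚ) + 1 = 1 := by norm_num
    rw [h1, one_mul]
    have h2 : (D : ℚ) + 3 + 1 = D + 4 := by ring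
    rw [h2]
    apply div_le_div_of_nonneg_right _ (by positivity)
    linarith
  · have hw' := hw j' rfl
    have hs := star j' (D + 3)
    have hwp := vv_pos j' (D + 3 + 1)
    have ht := tt_pos (j' + 1) (D + 3)
    have hw'' : vv (j' + 1) (D + 2) ≤ vv j' (D + 3 + 1) := hw'
    set x := vv (j' + 1) (D + 2) with hxd
    set w := vv j' (D + 3 + 1) with hwd
    set t := tt (j' + 1) (D + 3) with htd
    have e1 : 1 / t = (1 - 4 * ((j' : ℚ) + 2) / w) / (((j' : ℚ) + 2) * ((D : ℚ) + 4)) := by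
      have : ((j' : ℚ) + 2) * (((D + 3 : ℕ) : ℚ) + 1) / t = 1 - 4 * ((j' : ℚ) + 2) / w := by linarith
      rw [← this]
      push_cast
      have h5 : (0 : ℚ) < (j' : ℚ) + 2 := by positivity
      have h6 : (0 : ℚ) < (D : ℚ) + 4 := by positivity
      field_simp
      ring
    have e2 : x / t = (x - 4 * ((j' : ℚ) + 2) * (x / w)) / (((j' : ℚ) + 2) * ((D : ℚ) + 4)) := by
      rw [div_eq_mul_one_div x t, e1]
      ring
    rw [e2]
    push_cast
    have h7 : (j' : ℚ) + 1 + 1 = j' + 2 := by ring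
    rw [h7]
    apply div_le_div_of_nonneg_right _ (by positivity)
    have h8 : x / w ≤ 1 := by
      rw [div_le_one hwp]
      exact hw''
    have h9 : 4 * ((j' : ℚ) + 2) * (x / w) ≤ 4 * ((j' : ℚ) + 2) * 1 :=
      mul_le_mul_of_nonneg_left h8 (by positivity)
    linarith

lemma Vm_step (j : ℕ) (hw : ∀ j', j = j' + 1 → ∀ D, vv j (D + 2) ≤ vv j' (D + 4)) :
    ∀ D : ℕ, vv (j + 1) D ≤ vv j (D + 2) := by
  intro D
  induction D with
  | zero =>
    rw [vv_zero]
    have h := vv_lower j 2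
    have hj : (0 : ℚ) ≤ j := by positivity
    push_cast at *
    have h6 : ((j : ℚ) + 1) * (4 * ((j : ℚ) + 1 + 2)) ≤ ((j : ℚ) + 1) * vv j 2 := by
      refine le_trans ?_ h
      nlinarith
    exact le_of_mul_le_mul_left h6 (by positivity)
  | succ D ih =>
    have hA := lowA j D (fun j' h => hw j' h D)
    have hx := vv_lower j (D + 2)
    have hxp := vv_pos j (D + 2)
    have hzp := vv_pos (j + 1) D
    have ht := tt_pos (j + 1) (D + 1)
    have hs := star j (D + 1)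
    have r1 := vv_succ j (D + 2)
    have r2 := vv_succ (j + 1) D
    have hj : (0 : ℚ) ≤ j := by positivity
    have hD : (0 : ℚ) ≤ D := by positivity
    have hs' : ((j : ℚ) + 2) * (((D + 1 : ℕ) : ℚ) + 1) / tt (j + 1) (D + 1)
      + 4 * ((j : ℚ) + 2) / vv j (D + 2) = 1 := hs
    set x := vv j (D + 2) with hxd
    set z := vv (j + 1) D with hzd
    set t := tt (j + 1) (D + 1) with htd
    have hB : z / t ≤ (x - 4 * ((j : ℚ) + 2)) / (((j : ℚ) + 2) * ((D : ℚ) + 2)) := by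
      have h1 : z / t ≤ x / t := div_le_div_of_nonneg_right ih ht.le
      refine h1.trans (le_of_eq ?_)
      have e1 : 1 / t = (1 - 4 * ((j : ℚ) + 2) / x) / (((j : ℚ) + 2) * ((D : ℚ) + 2)) := by
        have : ((j : ℚ) + 2) * (((D + 1 : ℕ) : ℚ) + 1) / t = 1 - 4 * ((j : ℚ) + 2) / x := by linarith
        rw [← this]
        push_cast
        have h5 : (0 : ℚ) < (j : ℚ) + 2 := by positivity
        have h6 : (0 : ℚ) < (D : ℚ) + 2 := by positivity
        field_simp
        ring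
      rw [div_eq_mul_one_div x t, e1]
      field_simp
    have key := rat_ineq ((j : ℚ) + 1) ((D : ℚ) + 2) x (by linarith) (by linarith) (by
      push_cast at hx
      have : 4 * ((j : ℚ) + 1 + 1) * ((j : ℚ) + 1 + ((D : ℚ) + 2)) = 4 * ((j : ℚ) + 2) * ((j : ℚ) + 1 + ((D : ℚ) + 2)) := by ring
      rw [this]
      exact hx)
    have r1' : vv j (D + 1 + 2) = ((j : ℚ) + 2) * (4 + ((D : ℚ) + 3) * (x / tt j (D + 3))) := by
      have : vv j (D + 1 + 2) = vv j (D + 2 + 1) := rfl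
      rw [this, r1]
      push_cast
      ring
    have r2' : vv (j + 1) (D + 1) = ((j : ℚ) + 3) * (4 + ((D : ℚ) + 1) * (z / t)) := by
      rw [r2]
      push_cast
      ring
    rw [r1', r2']
    have a1 : ((j : ℚ) + 3) * (4 + ((D : ℚ) + 1) * (z / t)) ≤
        ((j : ℚ) + 3) * (4 + ((D : ℚ) + 1) * ((x - 4 * ((j : ℚ) + 2)) / (((j : ℚ) + 2) * ((D : ℚ) + 2)))) := by
      apply mul_le_mul_of_nonneg_left _ (by positivity)
      have := mul_le_mul_of_nonneg_left hB (by positivity : (0 : ℚ) ≤ (D : ℚ) + 1)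
      linarith
    have a2 : ((j : ℚ) + 2) * (4 + ((D : ℚ) + 3) * ((x - 4 * ((j : ℚ) + 1)) / (((j : ℚ) + 1) * ((D : ℚ) + 4))))
        ≤ ((j : ℚ) + 2) * (4 + ((D : ℚ) + 3) * (x / tt j (D + 3))) := by
      apply mul_le_mul_of_nonneg_left _ (by positivity)
      have := mul_le_mul_of_nonneg_left hA (by positivity : (0 : ℚ) ≤ (D : ℚ) + 3)
      linarith
    refine a1.trans (le_trans ?_ a2)
    have b1 : ((j : ℚ) + 3) * (4 + ((D : ℚ) + 1) * ((x - 4 * ((j : ℚ) + 2)) / (((j : ℚ) + 2) * ((D : ℚ) + 2))))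
        = ((j : ℚ) + 1 + 2) * (4 + ((D : ℚ) + 2 - 1) * (x - 4 * ((j : ℚ) + 1 + 1)) / (((j : ℚ) + 1 + 1) * ((D : ℚ) + 2))) := by
      have c1 : (j : ℚ) + 1 + 2 = j + 3 := by ring
      have c2 : (j : ℚ) + 1 + 1 = j + 2 := by ring
      have c3 : (D : ℚ) + 2 - 1 = D + 1 := by ring
      rw [c1, c2, c3, mul_div_assoc]
    have b2 : ((j : ℚ) + 2) * (4 + ((D : ℚ) + 3) * ((x - 4 * ((j : ℚ) + 1)) / (((j : ℚ) + 1) * ((D : ℚ) + 4))))
        = ((j : ℚ) + 1 + 1) * (4 + ((D : ℚ) + 2 + 1) * (x - 4 * ((j : ℚ) + 1)) / (((j : ℚ) + 1) * ((D : ℚ) + 2 + 2))) := by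
      have c2 : (j : ℚ) + 1 + 1 = j + 2 := by ring
      have c3 : (D : ℚ) + 2 + 1 = D + 3 := by ring
      have c4 : (D : ℚ) + 2 + 2 = D + 4 := by ring
      rw [c2, c3, c4, mul_div_assoc]
    rw [b1, b2]
    exact key

/-- monotonicity along a row -/
lemma Vm (j : ℕ) : ∀ D : ℕ, vv (j + 1) D ≤ vv j (D + 2) := by
  induction j with
  | zero =>
    intro D
    exact Vm_step 0 (by intro j' h; omega) D
  | succ j IH =>
    intro D
    exact Vm_step (j + 1) (by
      intro j' h D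
      have : j' = j := by omega
      subst this
      exact IH (D + 2)) D

end R218.BE
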